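import Mathlib

set_option autoImplicit false

namespace Pool.Agent.H37.Burau

open Matrix Complex
open scoped ComplexOrder

noncomputable section

/-- the unit `exp (2 i φ)` of `ℂ` -/
def uu (φ : ℝ) : ℂˣ := Units.mk0 (Complex.exp (2 * φ * I)) (Complex.exp_ne_zero _)

/-- evaluation of Laurent polynomials at `exp (2 i φ)` -/
def ev (φ : ℝ) : LaurentPolynomial ℤ →+* ℂ :=
  LaurentPolynomial.eval₂ (Int.castRingHom ℂ) (uu φ)

lemma ev_T (φ : ℝ) (m : ℤ) :
    ev φ (LaurentPolynomial.T m) = Complex.exp (2 * m * φ * I) := by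
  rw [ev, LaurentPolynomial.eval₂_T]
  simp only [uu, Units.val_zpow_eq_zpow_val, Units.val_mk0]
  rw [← Complex.exp_int_mul]
  ring_nf

lemma ev_C (φ : ℝ) (a : ℤ) : ev φ (LaurentPolynomial.C a) = a := by
  rw [ev, LaurentPolynomial.eval₂_C]
  simp

lemma continuous_ev (p : LaurentPolynomial ℤ) : Continuous (fun φ : ℝ => ev φ p) := by
  induction p using LaurentPolynomial.induction_on' with
  | add p q hp hq =>
    have := hp.add hq
    simp only [map_add]
    exact this
  | C_mul_T n a =>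
    simp only [map_mul, ev_T, ev_C]
    fun_prop

variable {n : ℕ}

/-- the invariant hermitian form -/
def JJ (n : ℕ) (φ : ℝ) : Matrix (Fin n) (Fin n) ℂ :=
  Matrix.of fun l j => Complex.exp (2 * (((j : ℕ) : ℂ) - ((l : ℕ) : ℂ)) * φ * I) *
    (if l = j then ((Real.cos φ : ℝ) : ℂ)
      else if j < l then -I * ((Real.sin φ : ℝ) : ℂ) else I * ((Real.sin φ : ℝ) : ℂ))

lemma continuous_JJ (n : ℕ) : Continuous (fun φ : ℝ => JJ n φ) := by
  refine continuous_matrix fun l j => ?_
  simp only [JJ, Matrix.of_apply]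
  split_ifs <;> fun_prop

lemma JJ_isHermitian (n : ℕ) (φ : ℝ) : (JJ n φ).IsHermitian := by
  ext l j
  simp only [JJ, Matrix.conjTranspose_apply, Matrix.of_apply, star_mul', Complex.star_def]
  rw [← Complex.exp_conj]
  have h1 : (starRingEnd ℂ) (2 * (((l : ℕ) : ℂ) - ((j : ℕ) : ℂ)) * φ * I)
      = 2 * (((j : ℕ) : ℂ) - ((l : ℕ) : ℂ)) * φ * I := by
    simp only [map_mul, map_sub, Complex.conj_I, Complex.conj_ofReal, Complex.conj_natCast,
      map_ofNat]
    ring
  rw [h1]
  congr 1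
  rcases lt_trichotomy l j with h | h | h
  · rw [if_neg h.ne', if_pos h, if_neg h.ne, if_neg (not_lt.mpr h.le)]
    rw [map_mul, map_neg, Complex.conj_I, Complex.conj_ofReal]
    ring
  · subst h
    rw [if_pos rfl, Complex.conj_ofReal]
  · rw [if_neg h.ne, if_neg (not_lt.mpr h.le), if_neg h.ne', if_pos h]
    rw [map_mul, Complex.conj_I, Complex.conj_ofReal]

lemma JJ_zero (n : ℕ) : JJ n 0 = 1 := by
  ext l j
  simp only [JJ, Matrix.of_apply, Matrix.one_apply]
  by_cases h : l = j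
  · simp [h]
  · simp [h]

lemma JJ_pi (n : ℕ) : JJ n Real.pi = -1 := by
  ext l j
  simp only [JJ, Matrix.of_apply, Matrix.neg_apply, Matrix.one_apply]
  by_cases h : l = j
  · subst h
    simp
  · simp [h]

/-- the vector `t e_i - e_{i+1}` at `t = exp (2 i φ)` -/
def uvec (n : ℕ) (i : ℕ) (φ : ℝ) : Fin n → ℂ := fun a =>
  if (a : ℕ) = i then Complex.exp (2 * φ * I) else if (a : ℕ) = i + 1 then -1 else 0

/-- the functional `v_{i+1} - v_i` -/
def dvec (n : ℕ) (i : ℕ) : Fin n → ℂ := fun a =>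
  if (a : ℕ) = i then -1 else if (a : ℕ) = i + 1 then 1 else 0

lemma sum_two {i : ℕ} (hi : i + 1 < n) (f : Fin n → ℂ)
    (hf : ∀ a : Fin n, (a : ℕ) ≠ i → (a : ℕ) ≠ i + 1 → f a = 0) :
    ∑ a, f a = f ⟨i, by omega⟩ + f ⟨i + 1, hi⟩ := by
  have hne : (⟨i, by omega⟩ : Fin n) ≠ ⟨i + 1, hi⟩ := by
    intro h
    rw [Fin.mk.injEq] at h
    omega
  rw [← Finset.sum_pair hne]
  symm
  apply Finset.sum_subset (Finset.subset_univ _)
  intro a _ ha
  apply hf
  · intro h
    apply ha
    simp [← h]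
  · intro h
    apply ha
    simp [← h]

lemma exp_ident (φ : ℝ) : Complex.exp (φ * I) = Real.cos φ + Real.sin φ * I := by
  rw [Complex.exp_mul_I]
  simp

lemma key (φ : ℝ) {i : ℕ} (hi : i + 1 < n) :
    star (uvec n i φ) ᵥ* JJ n φ = (-Complex.exp (-(φ * I))) • dvec n i := by
  ext j
  rw [Matrix.vecMul, dotProduct]
  rw [sum_two hi]
  swap
  · intro a h1 h2
    simp [uvec, h1, h2]
  have e1 : star (uvec n i φ) ⟨i, by omega⟩ = Complex.exp (-(2 * φ * I)) := by
    simp only [Pi.star_apply, uvec, if_true, Complex.star_def]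
    rw [← Complex.exp_conj]
    congr 1
    simp only [map_mul, Complex.conj_I, Complex.conj_ofReal, map_ofNat]
    ring
  have e2 : star (uvec n i φ) ⟨i + 1, hi⟩ = -1 := by
    simp [uvec]
  rw [e1, e2]
  simp only [JJ, Matrix.of_apply, Pi.smul_apply, smul_eq_mul, dvec]
  have hcs : Complex.exp (-(φ * I)) = Real.cos φ - Real.sin φ * I := by
    rw [show -(φ * I) = ((-φ : ℝ) : ℂ) * I by push_cast; ring, exp_ident]
    simp
    ring
  rcases lt_trichotomy (j : ℕ) i with h | h | h
  · have h1 : ¬ ((⟨i, by omega⟩ : Fin n) = j) := by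
      intro hh; rw [← hh] at h; simp at h
    have h2 : j < (⟨i, by omega⟩ : Fin n) := by
      rw [Fin.lt_def]; exact h
    have h3 : ¬ ((⟨i + 1, hi⟩ : Fin n) = j) := by
      intro hh; rw [← hh] at h; simp at h
    have h4 : j < (⟨i + 1, hi⟩ : Fin n) := by
      rw [Fin.lt_def]; simp; omega
    rw [if_neg h1, if_pos h2, if_neg h3, if_pos h4, if_neg (by omega), if_neg (by omega)]
    have : Complex.exp (-(2 * φ * I)) * (Complex.exp (2 * (((j : ℕ) : ℂ) - (i : ℂ)) * φ * I))
        = Complex.exp (2 * (((j : ℕ) : ℂ) - ((i + 1 : ℕ) : ℂ)) * φ * I) := by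
      rw [← Complex.exp_add]
      congr 1
      push_cast
      ring
    rw [← mul_assoc, this]
    ring
  · have h1 : (⟨i, by omega⟩ : Fin n) = j := by
      ext; simp [h]
    have h3 : ¬ ((⟨i + 1, hi⟩ : Fin n) = j) := by
      intro hh; rw [← hh] at h; simp at h
    have h4 : j < (⟨i + 1, hi⟩ : Fin n) := by
      rw [Fin.lt_def]; simp; omega
    rw [if_pos h1, if_neg h3, if_pos h4, if_pos h]
    have e3 : Complex.exp (2 * (((j : ℕ) : ℂ) - (i : ℂ)) * φ * I) = 1 := by
      rw [h]; simp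
    have e4 : Complex.exp (2 * (((j : ℕ) : ℂ) - ((i + 1 : ℕ) : ℂ)) * φ * I)
        = Complex.exp (-(2 * φ * I)) := by
      rw [h]; congr 1; push_cast; ring
    rw [e3, e4]
    have e5 : Complex.exp (-(φ * I)) = Complex.exp (-(2 * φ * I)) * Complex.exp (φ * I) := by
      rw [← Complex.exp_add]; congr 1; ring
    rw [e5, exp_ident]
    ring
  · by_cases h' : (j : ℕ) = i + 1
    · have h1 : ¬ ((⟨i, by omega⟩ : Fin n) = j) := by
        intro hh; rw [← hh] at h; simp at h
      have h2 : ¬ (j < (⟨i, by omega⟩ : Fin n)) := by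
        rw [Fin.lt_def]; simp; omega
      have h3 : (⟨i + 1, hi⟩ : Fin n) = j := by
        ext; simp [h']
      rw [if_neg h1, if_neg h2, if_pos h3, if_neg (by omega), if_pos h']
      have e3 : Complex.exp (-(2 * φ * I)) * (Complex.exp (2 * (((j : ℕ) : ℂ) - (i : ℂ)) * φ * I))
          = 1 := by
        rw [← Complex.exp_add, h']
        rw [← Complex.exp_zero]
        congr 1
        push_cast
        ring
      have e4 : Complex.exp (2 * (((j : ℕ) : ℂ) - ((i + 1 : ℕ) : ℂ)) * φ * I) = 1 := by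
        rw [h']; simp
      rw [← mul_assoc, e3, e4, hcs]
      ring
    · have h1 : ¬ ((⟨i, by omega⟩ : Fin n) = j) := by
        intro hh; rw [← hh] at h; simp at h
      have h2 : ¬ (j < (⟨i, by omega⟩ : Fin n)) := by
        rw [Fin.lt_def]; simp; omega
      have h3 : ¬ ((⟨i + 1, hi⟩ : Fin n) = j) := by
        intro hh; apply h'; rw [← hh]
      have h4 : ¬ (j < (⟨i + 1, hi⟩ : Fin n)) := by
        rw [Fin.lt_def]; simp; omega
      rw [if_neg h1, if_neg h2, if_neg h3, if_neg h4, if_neg (by omega), if_neg (by omega)]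
      have : Complex.exp (-(2 * φ * I)) * (Complex.exp (2 * (((j : ℕ) : ℂ) - (i : ℂ)) * φ * I))
          = Complex.exp (2 * (((j : ℕ) : ℂ) - ((i + 1 : ℕ) : ℂ)) * φ * I) := by
        rw [← Complex.exp_add]
        congr 1
        push_cast
        ring
      rw [← mul_assoc, this]
      ring

lemma star_dvec (i : ℕ) : star (dvec n i) = dvec n i := by
  ext a
  simp only [Pi.star_apply, dvec]
  split_ifs <;> simp

lemma key' (φ : ℝ) {i : ℕ} (hi : i + 1 < n) :
    JJ n φ *ᵥ (uvec n i φ) = (-Complex.exp (φ * I)) • dvec n i := by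
  have h := congrArg star (key φ hi)
  rw [Matrix.star_vecMul, star_star, (JJ_isHermitian n φ).eq, star_smul, star_dvec] at h
  rw [h]
  congr 1
  rw [Complex.star_def, map_neg, ← Complex.exp_conj]
  simp

lemma d_dot_u (φ : ℝ) {i : ℕ} (hi : i + 1 < n) :
    dvec n i ⬝ᵥ uvec n i φ = -1 - Complex.exp (2 * φ * I) := by
  rw [dotProduct, sum_two hi]
  · simp [dvec, uvec]
    ring
  · intro a h1 h2
    simp [uvec, h1, h2]

/-- complex reflection `1 + α u d^T` -/
def refl (n i : ℕ) (φ : ℝ) (α : ℂ) : Matrix (Fin n) (Fin n) ℂ :=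
  1 + α • vecMulVec (uvec n i φ) (dvec n i)

lemma refl_unitary (φ : ℝ) {i : ℕ} (hi : i + 1 < n) (α : ℂ)
    (hα : -(star α * Complex.exp (-(φ * I))) - α * Complex.exp (φ * I)
      + star α * α * (Complex.exp (φ * I) + Complex.exp (-(φ * I))) = 0) :
    (refl n i φ α)ᴴ * JJ n φ * refl n i φ α = JJ n φ := by
  have hd : star (dvec n i) = dvec n i := star_dvec i
  unfold refl
  rw [conjTranspose_add, conjTranspose_smul, conjTranspose_vecMulVec, conjTranspose_one, hd]
  rw [add_mul, one_mul, smul_mul_assoc, vecMulVec_mul, key φ hi]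
  rw [mul_add, mul_one, mul_smul_comm, add_mul, mul_vecMulVec, key' φ hi, smul_mul_assoc,
    vecMulVec_mul_vecMulVec, smul_dotProduct, d_dot_u φ hi]
  ext a b
  simp only [Matrix.add_apply, Matrix.smul_apply, vecMulVec_apply, Pi.smul_apply, smul_eq_mul]
  have e : Complex.exp (-(φ * I)) * Complex.exp (2 * φ * I) = Complex.exp (φ * I) := by
    rw [← Complex.exp_add]; congr 1; ring
  linear_combination (dvec n i a * dvec n i b) * hα +
    (star α * α * dvec n i a * dvec n i b) * e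

/-- the property of all matrices of the Burau image used in the proof -/
def Good (M : Matrix (Fin n) (Fin n) (LaurentPolynomial ℤ)) : Prop :=
  ∀ φ : ℝ, (M.map (ev φ))ᴴ * JJ n φ * M.map (ev φ) = JJ n φ ∧
    M.map (ev φ) *ᵥ (fun _ => 1) = fun _ => 1

lemma good_one : Good (1 : Matrix (Fin n) (Fin n) (LaurentPolynomial ℤ)) := by
  intro φ
  rw [Matrix.map_one _ (map_zero _) (map_one _)]
  simp

lemma good_mul {M N : Matrix (Fin n) (Fin n) (LaurentPolynomial ℤ)} (hM : Good M)
    (hN : Good N) : Good (M * N) := by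
  intro φ
  obtain ⟨h1, h2⟩ := hM φ
  obtain ⟨h3, h4⟩ := hN φ
  rw [Matrix.map_mul, conjTranspose_mul]
  constructor
  · calc (N.map (ev φ))ᴴ * (M.map (ev φ))ᴴ * JJ n φ * (M.map (ev φ) * N.map (ev φ))
        = (N.map (ev φ))ᴴ * ((M.map (ev φ))ᴴ * JJ n φ * M.map (ev φ)) * N.map (ev φ) := by
          simp only [Matrix.mul_assoc]
      _ = JJ n φ := by rw [h1, h3]
  · rw [← mulVec_mulVec, h4, h2]

lemma refl_fix (φ : ℝ) {i : ℕ} (hi : i + 1 < n) (α : ℂ) :
    refl n i φ α *ᵥ (fun _ => 1) = fun _ => 1 := by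
  unfold refl
  rw [add_mulVec, one_mulVec, smul_mulVec, vecMulVec_mulVec]
  have : dvec n i ⬝ᵥ (fun _ => (1 : ℂ)) = 0 := by
    rw [dotProduct, sum_two hi]
    · simp [dvec]
    · intro a h1 h2
      simp [dvec, h1, h2]
  rw [this]
  simp

lemma good_gen {i : ℕ} (hi : i + 1 < n) :
    Good (Matrix.of (fun (a b : Fin n) =>
      if ((a : ℕ) = i ∧ (b : ℕ) = i) then (1 - LaurentPolynomial.T 1 : LaurentPolynomial ℤ)
      else if ((a : ℕ) = i ∧ (b : ℕ) = i + 1) then (LaurentPolynomial.T 1 : LaurentPolynomial ℤ)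
      else if ((a : ℕ) = i + 1 ∧ (b : ℕ) = i) then (1 : LaurentPolynomial ℤ)
      else if ((a : ℕ) = i + 1 ∧ (b : ℕ) = i + 1) then (0 : LaurentPolynomial ℤ)
      else if a = b then (1 : LaurentPolynomial ℤ) else (0 : LaurentPolynomial ℤ))) := by
  intro φ
  have h : Matrix.map (Matrix.of (fun (a b : Fin n) =>
      if ((a : ℕ) = i ∧ (b : ℕ) = i) then (1 - LaurentPolynomial.T 1 : LaurentPolynomial ℤ)
      else if ((a : ℕ) = i ∧ (b : ℕ) = i + 1) then (LaurentPolynomial.T 1 : LaurentPolynomial ℤ)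
      else if ((a : ℕ) = i + 1 ∧ (b : ℕ) = i) then (1 : LaurentPolynomial ℤ)
      else if ((a : ℕ) = i + 1 ∧ (b : ℕ) = i + 1) then (0 : LaurentPolynomial ℤ)
      else if a = b then (1 : LaurentPolynomial ℤ) else (0 : LaurentPolynomial ℤ))) (ev φ)
      = refl n i φ 1 := by
    ext a b
    simp only [refl, Matrix.map_apply, Matrix.of_apply, Matrix.add_apply, Matrix.one_apply,
      vecMulVec_apply, uvec, dvec, one_smul]
    have hT : ev φ (LaurentPolynomial.T 1) = Complex.exp (2 * φ * I) := by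
      rw [ev_T]; simp
    by_cases ha : (a : ℕ) = i
    · by_cases hb : (b : ℕ) = i
      · have hab : a = b := by ext; omega
        subst hab
        simp [ha, hT, sub_eq_add_neg]
      · by_cases hb' : (b : ℕ) = i + 1
        · have hab : a ≠ b := by intro h; subst h; omega
          simp [ha, hb', hT, hab]
        · have hab : a ≠ b := by intro h; subst h; omega
          simp [ha, hb, hb', hab]
    · by_cases ha' : (a : ℕ) = i + 1
      · by_cases hb : (b : ℕ) = i
        · have hab : a ≠ b := by intro h; subst h; omega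
          simp [ha', hb, hab]
        · by_cases hb' : (b : ℕ) = i + 1
          · have hab : a = b := by ext; omega
            subst hab
            simp [ha']
          · have hab : a ≠ b := by intro h; subst h; omega
            simp [ha', hb, hb', hab]
      · by_cases hab : a = b
        · subst hab
          simp [ha, ha']
        · simp [ha, ha', hab]
  rw [h]
  refine ⟨refl_unitary φ hi 1 ?_, refl_fix φ hi 1⟩
  rw [star_one]
  ring

lemma good_gen_inv {i : ℕ} (hi : i + 1 < n) :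
    Good (Matrix.of (fun (a b : Fin n) =>
      if ((a : ℕ) = i ∧ (b : ℕ) = i) then (0 : LaurentPolynomial ℤ)
      else if ((a : ℕ) = i ∧ (b : ℕ) = i + 1) then (1 : LaurentPolynomial ℤ)
      else if ((a : ℕ) = i + 1 ∧ (b : ℕ) = i) then (LaurentPolynomial.T (-1) : LaurentPolynomial ℤ)
      else if ((a : ℕ) = i + 1 ∧ (b : ℕ) = i + 1) then
        (1 - LaurentPolynomial.T (-1) : LaurentPolynomial ℤ)
      else if a = b then (1 : LaurentPolynomial ℤ) else (0 : LaurentPolynomial ℤ))) := by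
  intro φ
  have h : Matrix.map (Matrix.of (fun (a b : Fin n) =>
      if ((a : ℕ) = i ∧ (b : ℕ) = i) then (0 : LaurentPolynomial ℤ)
      else if ((a : ℕ) = i ∧ (b : ℕ) = i + 1) then (1 : LaurentPolynomial ℤ)
      else if ((a : ℕ) = i + 1 ∧ (b : ℕ) = i) then (LaurentPolynomial.T (-1) : LaurentPolynomial ℤ)
      else if ((a : ℕ) = i + 1 ∧ (b : ℕ) = i + 1) then
        (1 - LaurentPolynomial.T (-1) : LaurentPolynomial ℤ)
      else if a = b then (1 : LaurentPolynomial ℤ) else (0 : LaurentPolynomial ℤ))) (ev φ)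
      = refl n i φ (Complex.exp (-(2 * φ * I))) := by
    ext a b
    simp only [refl, Matrix.map_apply, Matrix.of_apply, Matrix.add_apply, Matrix.one_apply,
      Matrix.smul_apply, vecMulVec_apply, uvec, dvec, smul_eq_mul]
    have hT : ev φ (LaurentPolynomial.T (-1)) = Complex.exp (-(2 * φ * I)) := by
      rw [ev_T]; congr 1; push_cast; ring
    have hE : Complex.exp (-(2 * φ * I)) * Complex.exp (2 * φ * I) = 1 := by
      rw [← Complex.exp_add]; simp
    by_cases ha : (a : ℕ) = i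
    · by_cases hb : (b : ℕ) = i
      · have hab : a = b := by ext; omega
        subst hab
        simp [ha, hE]
      · by_cases hb' : (b : ℕ) = i + 1
        · have hab : a ≠ b := by intro h; subst h; omega
          simp [ha, hb', hab, hE]
        · have hab : a ≠ b := by intro h; subst h; omega
          simp [ha, hb, hb', hab]
    · by_cases ha' : (a : ℕ) = i + 1
      · by_cases hb : (b : ℕ) = i
        · have hab : a ≠ b := by intro h; subst h; omega
          simp [ha', hb, hab, hT]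
        · by_cases hb' : (b : ℕ) = i + 1
          · have hab : a = b := by ext; omega
            subst hab
            simp [ha', hT, sub_eq_add_neg]
          · have hab : a ≠ b := by intro h; subst h; omega
            simp [ha', hb, hb', hab]
      · by_cases hab : a = b
        · subst hab
          simp [ha, ha']
        · simp [ha, ha', hab]
  rw [h]
  refine ⟨refl_unitary φ hi _ ?_, refl_fix φ hi _⟩
  have h1 : star (Complex.exp (-(2 * φ * I))) = Complex.exp (2 * φ * I) := by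
    rw [Complex.star_def, ← Complex.exp_conj]
    congr 1
    simp only [map_neg, map_mul, Complex.conj_I, Complex.conj_ofReal, map_ofNat]
    ring
  rw [h1, ← Complex.exp_add, ← Complex.exp_add, ← Complex.exp_add]
  have e1 : (2 * (φ : ℂ) * I) + -(φ * I) = φ * I := by ring
  have e2 : -(2 * (φ : ℂ) * I) + φ * I = -(φ * I) := by ring
  have e3 : (2 * (φ : ℂ) * I) + -(2 * φ * I) = 0 := by ring
  rw [e1, e2, e3, Complex.exp_zero]
  ring

/-- A continuous path of nondegenerate hermitian matrices that starts positive definite stays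
positive definite. -/
lemma posdef_path (A : ℝ → Matrix (Fin n) (Fin n) ℂ) (hc : Continuous A)
    (hH : ∀ φ, (A φ).IsHermitian) (S : Set ℝ) (hS : IsPreconnected S)
    (hnd : ∀ φ ∈ S, ∀ v, A φ *ᵥ v = 0 → v = 0) (φs : ℝ) (hφs : φs ∈ S)
    (hs : ∀ v, v ≠ 0 → 0 < (star v ⬝ᵥ (A φs *ᵥ v)).re) :
    ∀ φ ∈ S, ∀ v, v ≠ 0 → 0 < (star v ⬝ᵥ (A φ *ᵥ v)).re := by
  by_contra hcon
  push Not at hcon
  obtain ⟨φ₁, hφ₁, v₁, hv₁, hle⟩ := hcon
  set f : ℝ → (Fin n → ℂ) → ℝ := fun φ v => (star v ⬝ᵥ (A φ *ᵥ v)).re with hf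
  have hfc : Continuous (Function.uncurry f) := by
    have h1 : Continuous (fun p : ℝ × (Fin n → ℂ) => star p.2 ⬝ᵥ (A p.1 *ᵥ p.2)) := by
      apply Continuous.dotProduct
      · exact continuous_star.comp continuous_snd
      · exact Continuous.matrix_mulVec (hc.comp continuous_fst) continuous_snd
    exact Complex.continuous_re.comp h1
  set K : Set (Fin n → ℂ) := Metric.sphere 0 1 with hK
  have hKc : IsCompact K := isCompact_sphere _ _
  set m : ℝ → ℝ := fun φ => sInf (f φ '' K) with hm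
  have hmc : Continuous m := hKc.continuous_sInf hfc
  have hscale : ∀ (φ : ℝ) (c : ℝ) (v : Fin n → ℂ), f φ ((c : ℂ) • v) = c ^ 2 * f φ v := by
    intro φ c v
    simp only [hf]
    rw [star_smul, Matrix.mulVec_smul, smul_dotProduct, dotProduct_smul]
    simp only [smul_eq_mul, Complex.star_def, Complex.conj_ofReal]
    rw [← mul_assoc, ← Complex.ofReal_mul, Complex.re_ofReal_mul]
    ring
  have hnorm : ∀ v : Fin n → ℂ, v ≠ 0 → (((‖v‖⁻¹ : ℝ) : ℂ) • v) ∈ K := by
    intro v hv
    rw [hK, mem_sphere_zero_iff_norm, norm_smul]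
    simp [norm_ne_zero_iff.mpr hv]
  have hKne : K.Nonempty := ⟨_, hnorm v₁ hv₁⟩
  have hattain : ∀ φ, ∃ v ∈ K, m φ = f φ v ∧ ∀ w ∈ K, f φ v ≤ f φ w := by
    intro φ
    have hcf : ContinuousOn (f φ) K := (hfc.comp (Continuous.prodMk_right φ)).continuousOn
    obtain ⟨v, hv, hmin⟩ := hKc.exists_isMinOn hKne hcf
    refine ⟨v, hv, ?_, fun w hw => hmin hw⟩
    apply le_antisymm
    · apply csInf_le
      · exact hKc.bddBelow_image hcf
      · exact Set.mem_image_of_mem _ hv
    · apply le_csInf (hKne.image _)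
      rintro _ ⟨w, hw, rfl⟩
      exact hmin hw
  have hmpos : 0 < m φs := by
    obtain ⟨v, hv, h1, -⟩ := hattain φs
    rw [h1]
    apply hs
    rintro rfl
    rw [hK, mem_sphere_zero_iff_norm] at hv
    simp at hv
  have hmneg : m φ₁ ≤ 0 := by
    obtain ⟨v, hv, h1, h2⟩ := hattain φ₁
    rw [h1]
    refine (h2 _ (hnorm v₁ hv₁)).trans ?_
    rw [hscale]
    apply mul_nonpos_of_nonneg_of_nonpos (sq_nonneg _) hle
  obtain ⟨φ₂, hφ₂, hm2⟩ :=
    hS.intermediate_value hφ₁ hφs hmc.continuousOn ⟨hmneg, hmpos.le⟩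
  obtain ⟨v₂, hv₂, h1, h2⟩ := hattain φ₂
  have hf2 : f φ₂ v₂ = 0 := by rw [← h1, hm2]
  have hnn : ∀ v, 0 ≤ f φ₂ v := by
    intro v
    by_cases hv : v = 0
    · simp [hf, hv]
    · have := h2 _ (hnorm v hv)
      rw [hf2, hscale] at this
      have hpos : 0 < (‖v‖⁻¹) ^ 2 := by
        have := norm_pos_iff.mpr hv
        positivity
      exact nonneg_of_mul_nonneg_right this hpos
  have him : ∀ v, (star v ⬝ᵥ (A φ₂ *ᵥ v)).im = 0 := by
    intro v
    exact (hH φ₂).im_star_dotProduct_mulVec_self v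
  have hpsd : (A φ₂).PosSemidef := by
    apply Matrix.PosSemidef.of_dotProduct_mulVec_nonneg (hH φ₂)
    intro v
    rw [Complex.nonneg_iff]
    exact ⟨hnn v, (him v).symm⟩
  have hz : star v₂ ⬝ᵥ (A φ₂ *ᵥ v₂) = 0 := by
    apply Complex.ext
    · exact hf2
    · exact him v₂
  have hz2 := (hpsd.dotProduct_mulVec_zero_iff v₂).mp hz
  have := hnd φ₂ hφ₂ v₂ hz2
  rw [this, hK, mem_sphere_zero_iff_norm] at hv₂
  simp at hv₂

/-- averaging projector -/
def PP (A : Matrix (Fin n) (Fin n) ℂ) (k : ℕ) : Matrix (Fin n) (Fin n) ℂ :=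
  (k : ℂ)⁻¹ • ∑ j ∈ Finset.range k, A ^ j

lemma mul_PP {A : Matrix (Fin n) (Fin n) ℂ} {k : ℕ} (hA : A ^ k = 1) :
    A * PP A k = PP A k := by
  unfold PP
  rw [mul_smul_comm, Finset.mul_sum]
  congr 1
  have h := Finset.sum_range_succ (fun j => A ^ j) k
  have h' := Finset.sum_range_succ' (fun j => A ^ j) k
  simp only [← pow_succ']
  rw [h, hA, pow_zero] at h'
  exact (add_right_cancel h').symm

lemma pow_mul_PP {A : Matrix (Fin n) (Fin n) ℂ} {k : ℕ} (hA : A ^ k = 1) (j : ℕ) :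
    A ^ j * PP A k = PP A k := by
  induction j with
  | zero => simp
  | succ j ih => rw [pow_succ, Matrix.mul_assoc, mul_PP hA, ih]

lemma PP_sq {A : Matrix (Fin n) (Fin n) ℂ} {k : ℕ} (hk : 0 < k) (hA : A ^ k = 1) :
    PP A k * PP A k = PP A k := by
  nth_rewrite 1 [PP]
  rw [smul_mul_assoc, Finset.sum_mul]
  simp only [pow_mul_PP hA]
  rw [Finset.sum_const, Finset.card_range, ← Nat.cast_smul_eq_nsmul ℂ, smul_smul,
    inv_mul_cancel₀ (by exact_mod_cast hk.ne'), one_smul]

lemma PP_mulVec_fixed {A : Matrix (Fin n) (Fin n) ℂ} {k : ℕ} (hk : 0 < k)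
    {v : Fin n → ℂ} (hv : A *ᵥ v = v) : PP A k *ᵥ v = v := by
  have hj : ∀ j, A ^ j *ᵥ v = v := by
    intro j
    induction j with
    | zero => simp
    | succ j ih => rw [pow_succ, ← mulVec_mulVec, hv, ih]
  unfold PP
  rw [smul_mulVec, sum_mulVec]
  simp only [hj]
  rw [Finset.sum_const, Finset.card_range, ← Nat.cast_smul_eq_nsmul ℂ, smul_smul,
    inv_mul_cancel₀ (by exact_mod_cast hk.ne'), one_smul]

lemma ev_zero (p : LaurentPolynomial ℤ) (h : ∀ φ ∈ Set.Icc 0 Real.pi, ev φ p = 0) :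
    p = 0 := by
  obtain ⟨m, q, hq⟩ := p.exists_T_pow
  have hq0 : ∀ φ ∈ Set.Icc 0 Real.pi,
      Polynomial.eval (Complex.exp (2 * φ * I)) (q.map (Int.castRingHom ℂ)) = 0 := by
    intro φ hφ
    have h1 : ev φ (Polynomial.toLaurent q) = 0 := by
      rw [hq, map_mul, h φ hφ, zero_mul]
    rw [ev, LaurentPolynomial.eval₂_toLaurent] at h1
    rw [Polynomial.eval_map]
    exact h1
  have hqz : q.map (Int.castRingHom ℂ) = 0 := by
    apply Polynomial.eq_zero_of_infinite_isRoot
    have hinf : (Set.Ioo (0 : ℝ) 1).Infinite := Set.Ioo_infinite one_pos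
    refine Set.infinite_of_injOn_mapsTo (f := fun φ : ℝ => Complex.exp (2 * φ * I)) ?_ ?_ hinf
    · intro x hx y hy hxy
      have h1 : (Complex.exp (2 * x * I)).re = (Complex.exp (2 * y * I)).re := by
        simp only at hxy
        rw [hxy]
      have h2 : ∀ z : ℝ, (Complex.exp (2 * z * I)).re = Real.cos (2 * z) := by
        intro z
        have : (2 * (z : ℂ) * I) = ((2 * z : ℝ) : ℂ) * I := by push_cast; ring
        rw [this, Complex.exp_ofReal_mul_I_re]
      rw [h2, h2] at h1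
      have hpi := Real.pi_gt_three
      have h3 := Real.injOn_cos (⟨by linarith [hx.1], by linarith [hx.2]⟩ : 2 * x ∈ Set.Icc 0 Real.pi)
        (⟨by linarith [hy.1], by linarith [hy.2]⟩ : 2 * y ∈ Set.Icc 0 Real.pi) h1
      linarith
    · intro x hx
      have hpi := Real.pi_gt_three
      exact hq0 x ⟨hx.1.le, by linarith [hx.2]⟩
  have hq1 : q = 0 := by
    apply Polynomial.map_injective (Int.castRingHom ℂ) (RingHom.injective_int _)
    rw [hqz, Polynomial.map_zero]
  rw [hq1, map_zero] at hq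
  have h3 : p * LaurentPolynomial.T m * LaurentPolynomial.T (-m) = 0 := by
    rw [← hq, zero_mul]
  rw [mul_assoc, ← LaurentPolynomial.T_add] at h3
  simpa using h3

/-- elements of finite order with the `Good` property are trivial -/
theorem finite_order (M : Matrix (Fin n) (Fin n) (LaurentPolynomial ℤ)) (hM : Good M) (k : ℕ)
    (hk : 0 < k) (hMk : M ^ k = 1) : M = 1 := by
  set A : ℝ → Matrix (Fin n) (Fin n) ℂ := fun φ => M.map (ev φ) with hA
  have hAk : ∀ φ, A φ ^ k = 1 := by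
    intro φ
    have h1 : A φ = (ev φ).mapMatrix M := rfl
    rw [h1, ← map_pow, hMk, map_one]
  have hAc : Continuous A := continuous_matrix fun i j => continuous_ev (M i j)
  set P : ℝ → Matrix (Fin n) (Fin n) ℂ := fun φ => PP (A φ) k with hP
  have hPc : Continuous P := by
    simp only [hP, PP]
    have h1 : Continuous (fun φ => ∑ j ∈ Finset.range k, A φ ^ j) := by
      apply continuous_finsetSum
      intro j _
      exact hAc.pow j
    have h2 := h1.const_smul ((k : ℂ)⁻¹)
    exact h2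
  set N : ℝ → Matrix (Fin n) (Fin n) ℂ := fun φ => 1 - P φ with hN
  have hNc : Continuous N := continuous_const.sub hPc
  have hPP : ∀ φ, P φ * P φ = P φ := fun φ => PP_sq hk (hAk φ)
  have hPN : ∀ φ, P φ * N φ = 0 := by
    intro φ
    simp only [hN]
    rw [mul_sub, mul_one, hPP, sub_self]
  have hNP : ∀ φ, N φ * P φ = 0 := by
    intro φ
    simp only [hN]
    rw [sub_mul, one_mul, hPP, sub_self]
  have hinv : ∀ φ, (A φ)ᴴ * JJ n φ * A φ = JJ n φ := fun φ => (hM φ).1
  have hPJ : ∀ φ j, (P φ)ᴴ * JJ n φ * A φ ^ j = (P φ)ᴴ * JJ n φ := by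
    intro φ j
    induction j with
    | zero => simp
    | succ j ih =>
      rw [pow_succ, ← Matrix.mul_assoc, ih]
      have h1 : (P φ)ᴴ * (A φ)ᴴ = (P φ)ᴴ := by
        rw [← conjTranspose_mul, mul_PP (hAk φ)]
      calc (P φ)ᴴ * JJ n φ * A φ = (P φ)ᴴ * (A φ)ᴴ * JJ n φ * A φ := by rw [h1]
        _ = (P φ)ᴴ * ((A φ)ᴴ * JJ n φ * A φ) := by simp only [Matrix.mul_assoc]
        _ = (P φ)ᴴ * JJ n φ := by rw [hinv]
  have hPJP : ∀ φ, (P φ)ᴴ * JJ n φ * P φ = (P φ)ᴴ * JJ n φ := by
    intro φ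
    have : (P φ)ᴴ * JJ n φ * PP (A φ) k = (P φ)ᴴ * JJ n φ := by
      rw [PP, mul_smul_comm, Finset.mul_sum]
      simp only [hPJ]
      rw [Finset.sum_const, Finset.card_range, ← Nat.cast_smul_eq_nsmul ℂ, smul_smul,
        inv_mul_cancel₀ (by exact_mod_cast hk.ne'), one_smul]
    exact this
  have hnd : ∀ φ v, P φ *ᵥ v = 0 → ((N φ)ᴴ * JJ n φ * N φ) *ᵥ v = 0 → v = 0 := by
    intro φ v hv1 hv2
    have hNv : N φ *ᵥ v = v := by
      simp only [hN]
      rw [sub_mulVec, one_mulVec, hv1, sub_zero]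
    have h1 : (P φ)ᴴ *ᵥ (JJ n φ *ᵥ v) = 0 := by
      rw [mulVec_mulVec, ← hPJP, ← mulVec_mulVec, hv1, mulVec_zero]
    have h2 : (N φ)ᴴ *ᵥ (JJ n φ *ᵥ v) = 0 := by
      rw [← mulVec_mulVec, hNv, ← mulVec_mulVec] at hv2
      exact hv2
    have h3 : JJ n φ *ᵥ v = 0 := by
      have h4 : (1 : Matrix (Fin n) (Fin n) ℂ) = (N φ)ᴴ + (P φ)ᴴ := by
        rw [← conjTranspose_add]
        simp [hN]
      calc JJ n φ *ᵥ v = (1 : Matrix (Fin n) (Fin n) ℂ) *ᵥ (JJ n φ *ᵥ v) := by rw [one_mulVec]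
        _ = 0 := by rw [h4, add_mulVec, h1, h2, add_zero]
    have h5 : ∀ i : ℕ, ∀ hi : i + 1 < n, v ⟨i + 1, hi⟩ = v ⟨i, by omega⟩ := by
      intro i hi
      have h6 : (star (uvec n i φ) ᵥ* JJ n φ) ⬝ᵥ v = 0 := by
        rw [← dotProduct_mulVec, h3, dotProduct_zero]
      rw [key φ hi, smul_dotProduct, smul_eq_mul] at h6
      have h7 : dvec n i ⬝ᵥ v = 0 := by
        rcases mul_eq_zero.mp h6 with h | h
        · exact absurd (neg_eq_zero.mp h) (Complex.exp_ne_zero _)
        · exact h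
      rw [dotProduct, sum_two hi] at h7
      · simp [dvec] at h7
        linear_combination h7
      · intro a h1 h2
        simp [dvec, h1, h2]
    have h8 : ∀ i : ℕ, ∀ hi : i < n, v ⟨i, hi⟩ = v ⟨0, by omega⟩ := by
      intro i
      induction i with
      | zero => intro _; rfl
      | succ i ih => intro hi; rw [h5 i hi, ih]
    have h9 : A φ *ᵥ v = v := by
      rcases Nat.eq_zero_or_pos n with h0 | h0
      · subst h0
        ext a
        exact a.elim0
      · have h10 : v = (v ⟨0, h0⟩) • (fun _ => (1 : ℂ)) := by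
          ext a
          simp only [Pi.smul_apply, smul_eq_mul, mul_one]
          exact h8 a a.2
        rw [h10, mulVec_smul, (hM φ).2]
    have h11 := PP_mulVec_fixed hk h9
    rw [← h11]
    exact hv1
  set F : ℝ → ℝ → Matrix (Fin n) (Fin n) ℂ := fun ε φ =>
    (ε : ℂ) • ((N φ)ᴴ * JJ n φ * N φ) + (P φ)ᴴ * P φ with hF
  have hFc : ∀ ε, Continuous (F ε) := by
    intro ε
    simp only [hF]
    have h1 : Continuous (fun φ => (N φ)ᴴ * JJ n φ * N φ) :=
      ((hNc.matrix_conjTranspose).matrix_mul (continuous_JJ n)).matrix_mul hNc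
    have h2 : Continuous (fun φ => (P φ)ᴴ * P φ) := (hPc.matrix_conjTranspose).matrix_mul hPc
    have h3 := (h1.const_smul (ε : ℂ)).add h2
    exact h3
  have hFH : ∀ ε φ, (F ε φ).IsHermitian := by
    intro ε φ
    simp only [hF, Matrix.IsHermitian]
    rw [conjTranspose_add, conjTranspose_smul, conjTranspose_mul, conjTranspose_mul,
      conjTranspose_mul, conjTranspose_conjTranspose, conjTranspose_conjTranspose,
      (JJ_isHermitian n φ).eq, Complex.star_def, Complex.conj_ofReal, Matrix.mul_assoc]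
  have hFnd : ∀ ε, ε ≠ 0 → ∀ φ ∈ Set.Icc 0 Real.pi, ∀ v, F ε φ *ᵥ v = 0 → v = 0 := by
    intro ε hε φ _ v hv
    have hPv : P φ *ᵥ v = 0 := by
      have h1 : (P φ)ᴴ * F ε φ = (P φ)ᴴ * P φ := by
        simp only [hF]
        rw [mul_add, mul_smul_comm]
        have h2 : (P φ)ᴴ * ((N φ)ᴴ * JJ n φ * N φ) = 0 := by
          rw [← Matrix.mul_assoc, ← Matrix.mul_assoc, ← conjTranspose_mul, hNP]
          simp
        have h3 : (P φ)ᴴ * ((P φ)ᴴ * P φ) = (P φ)ᴴ * P φ := by
          rw [← Matrix.mul_assoc, ← conjTranspose_mul, hPP]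
        rw [h2, h3, smul_zero, zero_add]
      have h4 : ((P φ)ᴴ * P φ) *ᵥ v = 0 := by
        rw [← h1, ← mulVec_mulVec, hv, mulVec_zero]
      have h5 : star (P φ *ᵥ v) ⬝ᵥ (P φ *ᵥ v) = 0 := by
        rw [star_mulVec, ← dotProduct_mulVec, mulVec_mulVec, h4, dotProduct_zero]
      exact dotProduct_star_self_eq_zero.mp h5
    apply hnd φ v hPv
    have h6 : (ε : ℂ) • (((N φ)ᴴ * JJ n φ * N φ) *ᵥ v) = 0 := by
      have := hv
      simp only [hF] at this
      rw [add_mulVec, ← mulVec_mulVec, hPv, mulVec_zero, add_zero, smul_mulVec] at this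
      exact this
    rcases smul_eq_zero.mp h6 with h | h
    · exact absurd (Complex.ofReal_eq_zero.mp h) hε
    · exact h
  have hstart : ∀ ε φs : ℝ, ε * ε = 1 → JJ n φs = (ε : ℂ) • (1 : Matrix (Fin n) (Fin n) ℂ) →
      ∀ v, v ≠ 0 → 0 < (star v ⬝ᵥ (F ε φs *ᵥ v)).re := by
    intro ε φs hε hJ v hv
    have h1 : star v ⬝ᵥ (F ε φs *ᵥ v)
        = star (N φs *ᵥ v) ⬝ᵥ (N φs *ᵥ v) + star (P φs *ᵥ v) ⬝ᵥ (P φs *ᵥ v) := by
      simp only [hF]
      rw [hJ, mul_smul_comm, Matrix.mul_one, smul_mul_assoc, smul_smul, ← Complex.ofReal_mul, hε,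
        Complex.ofReal_one, one_smul, add_mulVec, dotProduct_add, star_mulVec, star_mulVec,
        ← dotProduct_mulVec, ← dotProduct_mulVec, mulVec_mulVec, mulVec_mulVec]
    have h2 : 0 < star v ⬝ᵥ (F ε φs *ᵥ v) := by
      rw [h1]
      by_cases hPv : P φs *ᵥ v = 0
      · have hNv : N φs *ᵥ v = v := by
          simp only [hN]
          rw [sub_mulVec, one_mulVec, hPv, sub_zero]
        rw [hPv, hNv, star_zero, zero_dotProduct, add_zero]
        exact dotProduct_star_self_pos_iff.mpr hv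
      · exact add_pos_of_nonneg_of_pos (dotProduct_star_self_nonneg _)
          (dotProduct_star_self_pos_iff.mpr hPv)
    exact (Complex.pos_iff.mp h2).1
  have hpos := posdef_path (F 1) (hFc 1) (hFH 1) (Set.Icc 0 Real.pi) isPreconnected_Icc
    (hFnd 1 one_ne_zero) 0 ⟨le_rfl, Real.pi_pos.le⟩
    (hstart 1 0 (by norm_num) (by rw [JJ_zero]; simp))
  have hneg := posdef_path (F (-1)) (hFc (-1)) (hFH (-1)) (Set.Icc 0 Real.pi) isPreconnected_Icc
    (hFnd (-1) (by norm_num)) Real.pi ⟨Real.pi_pos.le, le_rfl⟩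
    (hstart (-1) Real.pi (by norm_num) (by rw [JJ_pi]; simp))
  have hker : ∀ φ ∈ Set.Icc 0 Real.pi, ∀ v, P φ *ᵥ v = 0 → v = 0 := by
    intro φ hφ v hv
    by_contra hv0
    have h1 := hpos φ hφ v hv0
    have h2 := hneg φ hφ v hv0
    simp only [hF] at h1 h2
    rw [add_mulVec, ← mulVec_mulVec v (P φ)ᴴ (P φ), hv, mulVec_zero, add_zero, smul_mulVec,
      dotProduct_smul] at h1 h2
    simp at h1 h2
    linarith
  have hP1 : ∀ φ ∈ Set.Icc 0 Real.pi, A φ = 1 := by
    intro φ hφ
    have h1 : N φ = 0 := by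
      apply Matrix.ext_of_mulVec_single
      intro i
      rw [zero_mulVec]
      apply hker φ hφ
      rw [mulVec_mulVec, hPN, zero_mulVec]
    have h2 : P φ = 1 := by
      simp only [hN] at h1
      exact (sub_eq_zero.mp h1).symm
    have h3 := mul_PP (hAk φ)
    have h4 : PP (A φ) k = 1 := h2
    rw [h4, mul_one] at h3
    exact h3
  apply Matrix.ext
  intro a b
  have h := ev_zero (M a b - (1 : Matrix (Fin n) (Fin n) (LaurentPolynomial ℤ)) a b) (by
    intro φ hφ
    have h1 := congrFun (congrFun (hP1 φ hφ) a) b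
    simp only [hA, Matrix.map_apply] at h1
    rw [map_sub, h1, Matrix.one_apply, Matrix.one_apply]
    split_ifs <;> simp)
  exact sub_eq_zero.mp h

end

end Pool.Agent.H37.Burau
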