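import Mathlib

set_option autoImplicit false

namespace Pool.Agent.H37.Core

open Polynomial

noncomputable section

/-- sign specialisation: `a = 0`, or `a` and `b` have the same sign -/
def SLe {α : Type} [Zero α] [LT α] (a b : α) : Prop := (0 < a → 0 < b) ∧ (a < 0 → b < 0)

lemma SLe.refl {α : Type} [Zero α] [LT α] (a : α) : SLe a a := ⟨id, id⟩

lemma SLe.of_pos {a b : ℝ} (ha : 0 < a) (hb : 0 < b) : SLe a b :=
  ⟨fun _ => hb, fun h => absurd h (not_lt.mpr ha.le)⟩

lemma SLe.of_neg {a b : ℝ} (ha : a < 0) (hb : b < 0) : SLe a b :=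
  ⟨fun h => absurd h (not_lt.mpr ha.le), fun _ => hb⟩

lemma SLe.zero (b : ℝ) : SLe 0 b := ⟨fun h => absurd h (lt_irrefl _), fun h => absurd h (lt_irrefl _)⟩

/-- the shift -/
def T : Module.End ℝ (ℤ → ℝ) where
  toFun f := fun x => f (x + 1)
  map_add' _ _ := rfl
  map_smul' _ _ := rfl

lemma T_apply (f : ℤ → ℝ) (x : ℤ) : T f x = f (x + 1) := rfl

lemma T_pow_apply (i : ℕ) (f : ℤ → ℝ) (x : ℤ) : (T ^ i) f x = f (x + i) := by
  induction i generalizing x with
  | zero => simp
  | succ i ih =>
    rw [pow_succ', Module.End.mul_apply, T_apply, ih]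
    congr 1
    push_cast
    ring

/-- action of polynomials in the shift -/
def act (p : ℝ[X]) (f : ℤ → ℝ) : ℤ → ℝ := (aeval T p) f

lemma act_mul (p q : ℝ[X]) (f : ℤ → ℝ) : act (p * q) f = act p (act q f) := by
  simp [act]

lemma act_X_sub_C (c : ℝ) (f : ℤ → ℝ) (x : ℤ) : act (X - C c) f x = f (x + 1) - c * f x := by
  simp [act, T_apply]

lemma act_apply (p : ℝ[X]) (f : ℤ → ℝ) (x : ℤ) :
    act p f x = ∑ i ∈ Finset.range (p.natDegree + 1), p.coeff i * f (x + i) := by
  rw [act, aeval_eq_sum_range]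
  simp [T_pow_apply]

/-- slow monotone sign changes -/
def Good (J : ℕ) (F : Finset ℝ[X]) (f : ℤ → ℝ) : Prop :=
  ∀ x : ℤ, (∀ j : ℕ, j ≤ J → ∀ p ∈ F, SLe (act p f x) (act p f (x + j))) ∨
    (∀ j : ℕ, j ≤ J → ∀ p ∈ F, SLe (act p f x) (act p f (x - j)))

/-- a path from ratio `s/(1-s)` to ratio `s'/(1-s')` -/
structure Path (J : ℕ) (F : Finset ℝ[X]) (s s' : ℝ) (f : ℤ → ℝ) : Prop where
  nonneg : ∀ x, 0 ≤ f x
  ne : ∃ x, f x ≠ 0
  up : ∀ x, (1 - s) * f (x + 1) ≤ s * f x
  up_eq : ∀ x < 0, (1 - s) * f (x + 1) = s * f x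
  low : ∀ x, s' * f x ≤ (1 - s') * f (x + 1)
  low_eq : ∃ L, ∀ x, L ≤ x → s' * f x = (1 - s') * f (x + 1)
  good : Good J F f

def GP (F : Finset ℝ[X]) (s s' : ℝ) : Prop := ∀ J, ∃ f, Path J F s s' f

lemma Path.pos_of_pos_le {J : ℕ} {F : Finset ℝ[X]} {s s' : ℝ} {f : ℤ → ℝ} (h : Path J F s s' f)
    (hs : 0 < s) (hs1 : s < 1) {x₀ : ℤ} (hx₀ : 0 < f x₀) : ∀ x ≤ x₀, 0 < f x := by
  intro x hx
  induction x, hx using Int.leInductionDown with
  | base => exact hx₀
  | pred n hn ih =>
    have h1 := h.up (n - 1)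
    rw [sub_add_cancel] at h1
    have h2 : 0 < (1 - s) * f n := mul_pos (by linarith) ih
    have h3 : 0 < s * f (n - 1) := lt_of_lt_of_le h2 h1
    exact (mul_pos_iff_of_pos_left hs).mp h3

lemma Path.pos_left {J : ℕ} {F : Finset ℝ[X]} {s s' : ℝ} {f : ℤ → ℝ} (h : Path J F s s' f)
    (hs : 0 < s) (hs1 : s < 1) : ∀ x ≤ 0, 0 < f x := by
  obtain ⟨x₀, hx₀⟩ := h.ne
  have hx₀' : 0 < f x₀ := lt_of_le_of_ne (h.nonneg x₀) (Ne.symm hx₀)
  have hmin : 0 < f (min x₀ 0) := h.pos_of_pos_le hs hs1 hx₀' _ (min_le_left _ _)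
  have h0 : ∀ x : ℤ, min x₀ 0 ≤ x → x ≤ 0 → 0 < f x := by
    intro x hx
    induction x, hx using Int.leInduction with
    | base => intro _; exact hmin
    | succ n hn ih =>
      intro hn0
      have h1 := h.up_eq n (by omega)
      have h2 := ih (by omega)
      have h3 : 0 < (1 - s) * f (n + 1) := by rw [h1]; exact mul_pos hs h2
      exact (mul_pos_iff_of_pos_left (by linarith)).mp h3
  have h1 : 0 < f 0 := h0 0 (min_le_right _ _) le_rfl
  exact h.pos_of_pos_le hs hs1 h1

lemma Path.pos_of_pos_ge {J : ℕ} {F : Finset ℝ[X]} {s s' : ℝ} {f : ℤ → ℝ} (h : Path J F s s' f)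
    (hs : 0 < s') (hs1 : s' < 1) {x₀ : ℤ} (hx₀ : 0 < f x₀) : ∀ x, x₀ ≤ x → 0 < f x := by
  intro x hx
  induction x, hx using Int.leInduction with
  | base => exact hx₀
  | succ n hn ih =>
    have h1 := h.low n
    have h2 : 0 < s' * f n := mul_pos hs ih
    have h3 : 0 < (1 - s') * f (n + 1) := lt_of_lt_of_le h2 h1
    exact (mul_pos_iff_of_pos_left (by linarith)).mp h3

/-- solving a first order recurrence in both directions -/
lemma exists_solve0 (c : ℝ) (hc : c ≠ 0) (g : ℤ → ℝ) (v : ℝ) :
    ∃ f : ℤ → ℝ, f 0 = v ∧ ∀ x, f (x + 1) = c * f x + g x := by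
  let hp : ℕ → ℝ := fun m => Nat.rec v (fun m r => c * r + g m) m
  let hn : ℕ → ℝ := fun m => Nat.rec v (fun m r => (r - g (-((m : ℤ) + 1))) / c) m
  have hp0 : hp 0 = v := rfl
  have hps : ∀ m, hp (m + 1) = c * hp m + g m := fun m => rfl
  have hn0 : hn 0 = v := rfl
  have hns : ∀ m, hn (m + 1) = (hn m - g (-((m : ℤ) + 1))) / c := fun m => rfl
  let f : ℤ → ℝ := fun x => if 0 ≤ x then hp x.toNat else hn (-x).toNat
  have fp : ∀ m : ℕ, f m = hp m := by
    intro m
    simp [f]
  have fn : ∀ m : ℕ, f (-(m : ℤ)) = hn m := by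
    intro m
    rcases Nat.eq_zero_or_pos m with h | h
    · subst h
      simp [f, hp0, hn0]
    · have : ¬ (0 ≤ -(m : ℤ)) := by omega
      simp only [f, if_neg this, neg_neg, Int.toNat_natCast]
  refine ⟨f, ?_, ?_⟩
  · have := fp 0
    simpa [hp0] using this
  · intro x
    rcases le_or_gt 0 x with h | h
    · obtain ⟨m, rfl⟩ := Int.eq_ofNat_of_zero_le h
      have h1 : f ((m : ℤ) + 1) = hp (m + 1) := by
        have := fp (m + 1)
        push_cast at this
        exact this
      rw [h1, hps, fp]
    · obtain ⟨m, hm⟩ : ∃ m : ℕ, x = -((m : ℤ) + 1) := ⟨(-x - 1).toNat, by omega⟩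
      subst hm
      have h1 : f (-((m : ℤ) + 1)) = hn (m + 1) := by
        have := fn (m + 1)
        push_cast at this
        exact this
      have h2 : f (-((m : ℤ) + 1) + 1) = hn m := by
        rw [show -((m : ℤ) + 1) + 1 = -(m : ℤ) by ring]
        exact fn m
      rw [h1, h2, hns]
      field_simp
      ring

lemma exists_solve (c : ℝ) (hc : c ≠ 0) (g : ℤ → ℝ) (x₀ : ℤ) (v : ℝ) :
    ∃ f : ℤ → ℝ, f x₀ = v ∧ ∀ x, f (x + 1) = c * f x + g x := by
  obtain ⟨f, h0, h1⟩ := exists_solve0 c hc (fun x => g (x + x₀)) v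
  refine ⟨fun x => f (x - x₀), by simpa using h0, fun x => ?_⟩
  have := h1 (x - x₀)
  simp only [sub_add_cancel] at this
  show f (x + 1 - x₀) = c * f (x - x₀) + g x
  rw [show x + 1 - x₀ = x - x₀ + 1 by ring, this]

/-- if all ratios of a positive function are near `c` then `act p f` has the sign of `p(c)`. -/
lemma near (p : ℝ[X]) (c : ℝ) (hp : p.eval c ≠ 0) :
    ∃ η > 0, ∀ a b : ℝ, 0 < a → |a - c| < η → |b - c| < η → ∀ f : ℤ → ℝ, (∀ x, 0 < f x) →
      (∀ x, a * f x ≤ f (x + 1) ∧ f (x + 1) ≤ b * f x) →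
      ∀ x, 0 < act p f x * p.eval c := by
  set S : ℝ := ∑ i ∈ Finset.range (p.natDegree + 1), |p.coeff i| with hS
  have hS0 : 0 ≤ S := Finset.sum_nonneg fun i _ => abs_nonneg _
  set ε : ℝ := |p.eval c| / (1 + S) with hε
  have hεpos : 0 < ε := div_pos (abs_pos.mpr hp) (by linarith)
  have h1 : ∀ i : ℕ, ∃ η > 0, ∀ t : ℝ, |t - c| < η → |t ^ i - c ^ i| < ε := by
    intro i
    have := Metric.continuous_iff.mp (continuous_pow i (M := ℝ)) c ε hεpos
    simpa [Real.dist_eq] using this
  choose η hη0 hη using h1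
  have hfin : (Finset.range (p.natDegree + 1)).Nonempty := ⟨0, by simp⟩
  set η₀ : ℝ := (Finset.range (p.natDegree + 1)).inf' hfin η with hη₀
  refine ⟨η₀, ?_, ?_⟩
  · rw [gt_iff_lt, hη₀, Finset.lt_inf'_iff]
    intro i _
    exact hη0 i
  · intro a b ha0 ha hb f hf hab x
    have hlow : ∀ i : ℕ, a ^ i * f x ≤ f (x + i) := by
      intro i
      induction i with
      | zero => simp
      | succ i ih =>
        have h2 := (hab (x + i)).1
        have h3 : f (x + ((i + 1 : ℕ) : ℤ)) = f (x + i + 1) := by congr 1; push_cast; ring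
        rw [h3, pow_succ]
        calc a ^ i * a * f x = a * (a ^ i * f x) := by ring
          _ ≤ a * f (x + i) := mul_le_mul_of_nonneg_left ih ha0.le
          _ ≤ _ := h2
    have hb0 : 0 ≤ b := by
      have h2 := (hab x).2
      have h3 := hf (x + 1)
      have h4 := hf x
      by_contra h5
      push Not at h5
      have : b * f x < 0 := mul_neg_of_neg_of_pos h5 h4
      linarith
    have hup : ∀ i : ℕ, f (x + i) ≤ b ^ i * f x := by
      intro i
      induction i with
      | zero => simp
      | succ i ih =>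
        have h2 := (hab (x + i)).2
        have h3 : f (x + ((i + 1 : ℕ) : ℤ)) = f (x + i + 1) := by congr 1; push_cast; ring
        rw [h3, pow_succ]
        calc f (x + i + 1) ≤ b * f (x + i) := h2
          _ ≤ b * (b ^ i * f x) := mul_le_mul_of_nonneg_left ih hb0
          _ = b ^ i * b * f x := by ring
    have hfx := hf x
    have hclose : ∀ i ∈ Finset.range (p.natDegree + 1), |f (x + i) - c ^ i * f x| ≤ ε * f x := by
      intro i hi
      have h2 : η₀ ≤ η i := Finset.inf'_le _ hi
      have h3 := abs_lt.mp (hη i a (lt_of_lt_of_le ha h2))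
      have h4 := abs_lt.mp (hη i b (lt_of_lt_of_le hb h2))
      rw [abs_le]
      constructor
      · have := hlow i
        nlinarith
      · have := hup i
        nlinarith
    have hmain : |act p f x - p.eval c * f x| ≤ S * (ε * f x) := by
      rw [act_apply, eval_eq_sum_range, Finset.sum_mul, ← Finset.sum_sub_distrib, hS,
        Finset.sum_mul]
      refine (Finset.abs_sum_le_sum_abs _ _).trans (Finset.sum_le_sum fun i hi => ?_)
      rw [show p.coeff i * f (x + i) - p.coeff i * c ^ i * f x
        = p.coeff i * (f (x + i) - c ^ i * f x) by ring, abs_mul]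
      exact mul_le_mul_of_nonneg_left (hclose i hi) (abs_nonneg _)
    have hlt : S * (ε * f x) < |p.eval c| * f x := by
      have : S * ε < |p.eval c| := by
        rw [hε, mul_div_assoc', div_lt_iff₀ (by linarith)]
        have := abs_pos.mpr hp
        nlinarith
      nlinarith
    have h5 := abs_le.mp (hmain.trans hlt.le)
    have h6 := (lt_of_le_of_lt hmain hlt)
    rw [abs_lt] at h6
    rcases lt_or_gt_of_ne hp with h7 | h7
    · rw [abs_of_neg h7] at h6
      have : act p f x < 0 := by nlinarith [h6.2]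
      exact mul_pos_of_neg_of_neg this h7
    · rw [abs_of_pos h7] at h6
      have : 0 < act p f x := by nlinarith [h6.1]
      exact mul_pos this h7

lemma near_all (F : Finset ℝ[X]) (c : ℝ) :
    ∃ η > 0, ∀ p ∈ F, p.eval c ≠ 0 → ∀ a b : ℝ, 0 < a → |a - c| < η → |b - c| < η →
      ∀ f : ℤ → ℝ, (∀ x, 0 < f x) →
      (∀ x, a * f x ≤ f (x + 1) ∧ f (x + 1) ≤ b * f x) →
      ∀ x, 0 < act p f x * p.eval c := by
  classical
  induction F using Finset.induction_on with
  | empty => exact ⟨1, one_pos, by simp⟩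
  | insert p F _ ih =>
    obtain ⟨η, hη, h⟩ := ih
    by_cases hp : p.eval c = 0
    · refine ⟨η, hη, fun q hq hqc => ?_⟩
      rcases Finset.mem_insert.mp hq with rfl | hq
      · exact absurd hp hqc
      · exact h q hq hqc
    · obtain ⟨η', hη', h'⟩ := near p c hp
      refine ⟨min η η', lt_min hη hη', fun q hq hqc a b ha0 ha hb => ?_⟩
      rcases Finset.mem_insert.mp hq with rfl | hq
      · exact h' a b ha0 (lt_of_lt_of_le ha (min_le_right _ _))
          (lt_of_lt_of_le hb (min_le_right _ _))
      · exact h q hq hqc a b ha0 (lt_of_lt_of_le ha (min_le_left _ _))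
          (lt_of_lt_of_le hb (min_le_left _ _))

lemma ratio_cont (u : ℝ) (hu : u < 1) (η : ℝ) (hη : 0 < η) :
    ∃ δ > 0, ∀ s, |s - u| < δ → |s / (1 - s) - u / (1 - u)| < η := by
  have h1 : ContinuousAt (fun s : ℝ => s / (1 - s)) u := by
    apply ContinuousAt.div continuousAt_id (by fun_prop)
    linarith
  have := Metric.continuousAt_iff.mp h1 η hη
  simpa [Real.dist_eq] using this

open Classical in
/-- polynomials of `F` vanishing at `c`, divided by `X - c` -/
def quot (F : Finset ℝ[X]) (c : ℝ) : Finset ℝ[X] :=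
  (F.filter (fun p => p.IsRoot c)).image (fun p => p /ₘ (X - C c))

lemma good_of_quot {J : ℕ} {F : Finset ℝ[X]} {c : ℝ} {f : ℤ → ℝ}
    (hnear : ∀ p ∈ F, p.eval c ≠ 0 → ∀ x, 0 < act p f x * p.eval c)
    (hg : Good J (quot F c) (act (X - C c) f)) : Good J F f := by
  have key : ∀ x y : ℤ, (∀ q ∈ quot F c, SLe (act q (act (X - C c) f) x)
      (act q (act (X - C c) f) y)) → ∀ p ∈ F, SLe (act p f x) (act p f y) := by
    intro x y h p hp
    by_cases hr : p.IsRoot c
    · have hq : p /ₘ (X - C c) ∈ quot F c := by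
        classical
        unfold quot
        exact Finset.mem_image_of_mem _ (Finset.mem_filter.mpr ⟨hp, hr⟩)
      have h1 := h _ hq
      rw [← act_mul, mul_comm, mul_divByMonic_eq_iff_isRoot.mpr hr] at h1
      exact h1
    · have h1 := hnear p hp hr x
      have h2 := hnear p hp hr y
      rcases lt_or_gt_of_ne (show p.eval c ≠ 0 from hr) with h3 | h3
      · apply SLe.of_neg
        · by_contra h4
          push Not at h4
          nlinarith
        · by_contra h4
          push Not at h4
          nlinarith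
      · apply SLe.of_pos
        · exact (mul_pos_iff_of_pos_right h3).mp h1
        · exact (mul_pos_iff_of_pos_right h3).mp h2
  intro x
  rcases hg x with h | h
  · left
    intro j hj
    exact key x (x + j) (h j hj)
  · right
    intro j hj
    exact key x (x - j) (h j hj)

lemma act_neg (p : ℝ[X]) (f : ℤ → ℝ) (x : ℤ) : act p (-f) x = - act p f x := by
  simp [act]

lemma SLe.neg {a b : ℝ} (h : SLe a b) : SLe (-a) (-b) :=
  ⟨fun h1 => by have := h.2 (by linarith); linarith, fun h1 => by have := h.1 (by linarith); linarith⟩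

lemma good_neg {J : ℕ} {F : Finset ℝ[X]} {f : ℤ → ℝ} (h : Good J F f) : Good J F (-f) := by
  intro x
  rcases h x with h | h
  · left
    intro j hj p hp
    rw [act_neg, act_neg]
    exact (h j hj p hp).neg
  · right
    intro j hj p hp
    rw [act_neg, act_neg]
    exact (h j hj p hp).neg

lemma stepA (F : Finset ℝ[X]) (u : ℝ) (hu0 : 0 < u) (hu1 : u < 1)
    (hq : ∀ s, u < s → s < 1 → GP (quot F (u / (1 - u))) s 0) :
    ∃ δ > 0, ∀ s, u < s → s < u + δ → s < 1 → GP F s u := by
  set c : ℝ := u / (1 - u) with hc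
  have h1u : 0 < 1 - u := by linarith
  have hc0 : 0 < c := div_pos hu0 h1u
  obtain ⟨η, hη, hnear⟩ := near_all F c
  obtain ⟨δ, hδ, hcont⟩ := ratio_cont u hu1 η hη
  refine ⟨δ, hδ, fun s hs1 hs2 hs3 J => ?_⟩
  obtain ⟨g, hg⟩ := hq s hs1 hs3 J
  have h1s : 0 < 1 - s := by linarith
  have hs0 : 0 < s := by linarith
  set d : ℝ := s / (1 - s) with hd
  have hcd : c < d := by
    rw [hc, hd, div_lt_div_iff₀ h1u h1s]
    nlinarith
  have hdc : 0 < d - c := by linarith
  have hd0 : 0 < d := by linarith
  have hgpos := hg.pos_left hs0 hs3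
  obtain ⟨f, hf0, hf⟩ := exists_solve c hc0.ne' g 0 (g 0 / (d - c))
  have hgd : ∀ x < 0, g (x + 1) = d * g x := by
    intro x hx
    have := hg.up_eq x hx
    rw [hd]
    field_simp
    linarith
  have hgd' : ∀ x, g (x + 1) ≤ d * g x := by
    intro x
    have := hg.up x
    rw [hd, div_mul_eq_mul_div, le_div_iff₀ h1s]
    linarith
  have hneg : ∀ x ≤ 0, g x = (d - c) * f x := by
    intro x hx
    induction x, hx using Int.leInductionDown with
    | base =>
      rw [hf0]
      field_simp
    | pred n hn ih =>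
      have h1 := hgd (n - 1) (by omega)
      have h2 := hf (n - 1)
      rw [sub_add_cancel] at h1 h2
      rw [h1, h2] at ih
      have h3 : c * g (n - 1) = c * ((d - c) * f (n - 1)) := by linarith
      exact mul_left_cancel₀ hc0.ne' h3
  have hle : ∀ x, g x ≤ (d - c) * f x := by
    intro x
    rcases le_total x 0 with h | h
    · exact (hneg x h).le
    · induction x, h using Int.leInduction with
      | base => exact (hneg 0 le_rfl).le
      | succ n hn ih =>
        have h1 := hgd' n
        rw [hf n]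
        have h2 : (d - c) * (c * f n + g n) = c * ((d - c) * f n) + (d - c) * g n := by ring
        rw [h2]
        have h3 : c * g n ≤ c * ((d - c) * f n) := mul_le_mul_of_nonneg_left ih hc0.le
        linarith
  have hfneg : ∀ x ≤ 0, 0 < f x := by
    intro x hx
    have h1 := hgpos x hx
    rw [hneg x hx] at h1
    exact (mul_pos_iff_of_pos_left hdc).mp h1
  have hfpos : ∀ x, 0 < f x := by
    intro x
    rcases le_total x 0 with h | h
    · exact hfneg x h
    · induction x, h using Int.leInduction with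
      | base => exact hfneg 0 le_rfl
      | succ n hn ih =>
        rw [hf n]
        have := hg.nonneg n
        have := mul_pos hc0 ih
        linarith
  have hratio : ∀ x, c * f x ≤ f (x + 1) ∧ f (x + 1) ≤ d * f x := by
    intro x
    rw [hf x]
    have := hg.nonneg x
    have := hle x
    constructor <;> linarith
  refine ⟨f, ?_⟩
  constructor
  · exact fun x => (hfpos x).le
  · exact ⟨0, (hfpos 0).ne'⟩
  · intro x
    have h1 := (hratio x).2
    rw [hd, div_mul_eq_mul_div, le_div_iff₀ h1s] at h1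
    linarith
  · intro x hx
    have h1 : f (x + 1) = d * f x := by
      rw [hf x, hneg x hx.le]
      ring
    rw [h1, hd]
    field_simp
  · intro x
    have h1 := (hratio x).1
    rw [hc, div_mul_eq_mul_div, div_le_iff₀ h1u] at h1
    linarith
  · obtain ⟨L, hL⟩ := hg.low_eq
    refine ⟨L + 1, fun x hx => ?_⟩
    have h1 := hL (x - 1) (by omega)
    rw [sub_add_cancel] at h1
    have h2 : g x = 0 := by linarith
    rw [hf x, h2, hc]
    field_simp
    ring
  · apply good_of_quot
    · intro p hp hpc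
      apply hnear p hp hpc c d hc0
      · simpa using hη
      · apply hcont
        rw [abs_of_pos (by linarith)]
        linarith
      · exact hfpos
      · exact hratio
    · have h1 : act (X - C c) f = g := by
        ext x
        rw [act_X_sub_C, hf x]
        ring
      rw [h1]
      exact hg.good

lemma stepB (F : Finset ℝ[X]) (u : ℝ) (hu0 : 0 < u) (hu1 : u < 1)
    (hq : ∀ s, 0 < s → s < u → GP (quot F (u / (1 - u))) 1 s) :
    ∃ δ > 0, ∀ s, u - δ < s → s < u → 0 < s → GP F u s := by
  set c : ℝ := u / (1 - u) with hc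
  have h1u : 0 < 1 - u := by linarith
  have hc0 : 0 < c := div_pos hu0 h1u
  obtain ⟨η, hη, hnear⟩ := near_all F c
  obtain ⟨δ, hδ, hcont⟩ := ratio_cont u hu1 η hη
  refine ⟨δ, hδ, fun s hs1 hs2 hs3 J => ?_⟩
  obtain ⟨g, hg⟩ := hq s hs3 hs2 J
  have h1s : 0 < 1 - s := by linarith
  have hs1' : s < 1 := by linarith
  set e : ℝ := s / (1 - s) with he
  have hec : e < c := by
    rw [hc, he, div_lt_div_iff₀ h1s h1u]
    nlinarith
  have hce : 0 < c - e := by linarith
  have he0 : 0 < e := div_pos hs3 h1s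
  obtain ⟨x₀, hx₀⟩ := hg.ne
  have hx₀' : 0 < g x₀ := lt_of_le_of_ne (hg.nonneg x₀) (Ne.symm hx₀)
  have hgpos0 := hg.pos_of_pos_ge hs3 hs1' hx₀'
  obtain ⟨L₀, hL₀⟩ := hg.low_eq
  set L : ℤ := max x₀ L₀ with hL
  have hgpos : ∀ x, L ≤ x → 0 < g x := fun x hx => hgpos0 x ((le_max_left _ _).trans hx)
  obtain ⟨f, hf0, hf⟩ := exists_solve c hc0.ne' (fun x => - g x) L (g L / (c - e))
  have hge : ∀ x, L ≤ x → g (x + 1) = e * g x := by
    intro x hx
    have := hL₀ x ((le_max_right _ _).trans hx)
    rw [he]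
    field_simp
    linarith
  have hge' : ∀ x, e * g x ≤ g (x + 1) := by
    intro x
    have := hg.low x
    rw [he, div_mul_eq_mul_div, div_le_iff₀ h1s]
    linarith
  have hright : ∀ x, L ≤ x → g x = (c - e) * f x := by
    intro x hx
    induction x, hx using Int.leInduction with
    | base =>
      rw [hf0]
      field_simp
    | succ n hn ih =>
      rw [hge n hn, hf n]
      have h1 : (c - e) * (c * f n + - g n) = c * ((c - e) * f n) - (c - e) * g n := by ring
      rw [h1, ← ih]
      ring
  have hle : ∀ x, g x ≤ (c - e) * f x := by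
    intro x
    rcases le_total L x with h | h
    · exact (hright x h).le
    · induction x, h using Int.leInductionDown with
      | base => exact (hright L le_rfl).le
      | pred n hn ih =>
        have h1 := hge' (n - 1)
        have h2 := hf (n - 1)
        rw [sub_add_cancel] at h1 h2
        rw [h2] at ih
        have h3 : c * g (n - 1) ≤ c * ((c - e) * f (n - 1)) := by
          have h4 : (c - e) * (c * f (n - 1) + - g (n - 1))
            = c * ((c - e) * f (n - 1)) - (c - e) * g (n - 1) := by ring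
          rw [h4] at ih
          linarith
        exact le_of_mul_le_mul_left h3 hc0
  have hfr : ∀ x, L ≤ x → 0 < f x := by
    intro x hx
    have h1 := hgpos x hx
    rw [hright x hx] at h1
    exact (mul_pos_iff_of_pos_left hce).mp h1
  have hfpos : ∀ x, 0 < f x := by
    intro x
    rcases le_total L x with h | h
    · exact hfr x h
    · induction x, h using Int.leInductionDown with
      | base => exact hfr L le_rfl
      | pred n hn ih =>
        have h2 := hf (n - 1)
        rw [sub_add_cancel] at h2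
        have h3 := hg.nonneg (n - 1)
        have h4 : 0 < c * f (n - 1) := by linarith
        exact (mul_pos_iff_of_pos_left hc0).mp h4
  have hratio : ∀ x, e * f x ≤ f (x + 1) ∧ f (x + 1) ≤ c * f x := by
    intro x
    rw [hf x]
    have := hg.nonneg x
    have := hle x
    constructor <;> linarith
  refine ⟨f, ?_⟩
  constructor
  · exact fun x => (hfpos x).le
  · exact ⟨0, (hfpos 0).ne'⟩
  · intro x
    have h1 := (hratio x).2
    rw [hc, div_mul_eq_mul_div, le_div_iff₀ h1u] at h1
    linarith
  · intro x hx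
    have h1 := hg.up_eq x hx
    have h2 : g x = 0 := by linarith
    rw [hf x, h2, hc]
    field_simp
    ring
  · intro x
    have h1 := (hratio x).1
    rw [he, div_mul_eq_mul_div, div_le_iff₀ h1s] at h1
    linarith
  · refine ⟨L, fun x hx => ?_⟩
    have h1 : f (x + 1) = e * f x := by
      rw [hf x, hright x hx]
      ring
    rw [h1, he]
    field_simp
  · apply good_of_quot
    · intro p hp hpc
      apply hnear p hp hpc e c he0
      · apply hcont
        rw [abs_lt]
        constructor <;> linarith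
      · simpa using hη
      · exact hfpos
      · exact hratio
    · have h1 : act (X - C c) f = - g := by
        ext x
        rw [act_X_sub_C, hf x]
        simp
      rw [h1]
      exact good_neg hg.good

lemma act_congr {p : ℝ[X]} {f g : ℤ → ℝ} {x : ℤ}
    (h : ∀ i : ℕ, i ≤ p.natDegree → f (x + i) = g (x + i)) : act p f x = act p g x := by
  rw [act_apply, act_apply]
  apply Finset.sum_congr rfl
  intro i hi
  rw [h i (by simpa [Nat.lt_succ_iff] using hi)]

lemma act_smul_shift (p : ℝ[X]) (l : ℝ) (y : ℤ) (f : ℤ → ℝ) (x : ℤ) :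
    act p (fun z => l * f (z - y)) x = l * act p f (x - y) := by
  rw [act_apply, act_apply, Finset.mul_sum]
  apply Finset.sum_congr rfl
  intro i _
  rw [show x + (i : ℤ) - y = x - y + i by ring]
  ring

lemma SLe.smul {a b l : ℝ} (hl : 0 < l) (h : SLe a b) : SLe (l * a) (l * b) :=
  ⟨fun h1 => mul_pos hl (h.1 ((mul_pos_iff_of_pos_left hl).mp h1)),
   fun h1 => by
    have h2 : a < 0 := by
      by_contra h3
      push Not at h3
      have := mul_nonneg hl.le h3
      linarith
    exact mul_neg_of_pos_of_neg hl (h.2 h2)⟩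

lemma path_trans (F : Finset ℝ[X]) (s u s' : ℝ) (hu0 : 0 < u) (hu1 : u < 1) (hsu : u ≤ s)
    (hs' : s' ≤ u) (h1 : GP F s u) (h2 : GP F u s') :
    GP F s s' := by
  intro J
  obtain ⟨f₁, hf₁⟩ := h1 J
  obtain ⟨f₂, hf₂⟩ := h2 J
  obtain ⟨D, hD⟩ : ∃ D : ℕ, ∀ p ∈ F, p.natDegree ≤ D :=
    ⟨F.sup (fun p => p.natDegree), fun p hp => Finset.le_sup (f := fun p => p.natDegree) hp⟩
  obtain ⟨x₀, hx₀⟩ := hf₁.ne
  have hx₀' : 0 < f₁ x₀ := lt_of_le_of_ne (hf₁.nonneg x₀) (Ne.symm hx₀)
  have hpos1 := hf₁.pos_of_pos_ge hu0 hu1 hx₀'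
  have hpos2 := hf₂.pos_left hu0 hu1
  obtain ⟨L₀, hL₀⟩ := hf₁.low_eq
  set L : ℤ := max (max x₀ L₀) 0 with hL
  have hLx : x₀ ≤ L := (le_max_left _ _).trans (le_max_left _ _)
  have hLL : L₀ ≤ L := (le_max_right _ _).trans (le_max_left _ _)
  have hL0 : 0 ≤ L := le_max_right _ _
  set y₀ : ℤ := L + 2 * J + D + 1 with hy₀
  have h1u : 0 < 1 - u := by linarith
  set l : ℝ := f₁ y₀ / f₂ 0 with hl
  have hl0 : 0 < l := div_pos (hpos1 y₀ (by omega)) (hpos2 0 le_rfl)
  -- the two functions agree between `L` and `y₀`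
  have hagree : ∀ x, L ≤ x → x ≤ y₀ → f₁ x = l * f₂ (x - y₀) := by
    intro x hx1 hx2
    induction x, hx2 using Int.leInductionDown with
    | base =>
      rw [sub_self, hl]
      have := (hpos2 0 le_rfl).ne'
      field_simp
    | pred n hn ih =>
      have e1 := ih (by omega)
      have e2 := hL₀ (n - 1) (by omega)
      have e3 := hf₂.up_eq (n - 1 - y₀) (by omega)
      rw [show n - 1 - y₀ + 1 = n - y₀ by ring] at e3
      rw [sub_add_cancel, e1] at e2
      have e4 : u * f₁ (n - 1) = u * (l * f₂ (n - 1 - y₀)) := by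
        rw [e2]
        linear_combination l * e3
      exact mul_left_cancel₀ hu0.ne' e4
  set f : ℤ → ℝ := fun x => if x ≤ y₀ then f₁ x else l * f₂ (x - y₀) with hf
  have hfl : ∀ x, x ≤ y₀ → f x = f₁ x := by
    intro x hx
    simp only [hf, if_pos hx]
  have hfr : ∀ x, L ≤ x → f x = l * f₂ (x - y₀) := by
    intro x hx
    by_cases h : x ≤ y₀
    · rw [hfl x h, hagree x hx h]
    · simp only [hf, if_neg h]
  refine ⟨f, ?_⟩
  constructor
  · intro x
    by_cases h : x ≤ y₀
    · rw [hfl x h]
      exact hf₁.nonneg x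
    · rw [hfr x (by omega)]
      exact mul_nonneg hl0.le (hf₂.nonneg _)
  · refine ⟨L, ?_⟩
    rw [hfl L (by omega)]
    exact (hpos1 L hLx).ne'
  · intro x
    by_cases h : x + 1 ≤ y₀
    · rw [hfl x (by omega), hfl (x + 1) h]
      exact hf₁.up x
    · rw [hfr x (by omega), hfr (x + 1) (by omega)]
      have e1 := hf₂.up (x - y₀)
      rw [show x - y₀ + 1 = x + 1 - y₀ by ring] at e1
      have e2 := hf₂.nonneg (x - y₀)
      have e3 := hf₂.nonneg (x + 1 - y₀)
      have e4 : (1 - s) * f₂ (x + 1 - y₀) ≤ s * f₂ (x - y₀) := by nlinarith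
      calc (1 - s) * (l * f₂ (x + 1 - y₀)) = l * ((1 - s) * f₂ (x + 1 - y₀)) := by ring
        _ ≤ l * (s * f₂ (x - y₀)) := mul_le_mul_of_nonneg_left e4 hl0.le
        _ = _ := by ring
  · intro x hx
    rw [hfl x (by omega), hfl (x + 1) (by omega)]
    exact hf₁.up_eq x hx
  · intro x
    by_cases h : x + 1 ≤ y₀
    · rw [hfl x (by omega), hfl (x + 1) h]
      have e1 := hf₁.low x
      have e2 := hf₁.nonneg x
      have e3 := hf₁.nonneg (x + 1)
      nlinarith
    · rw [hfr x (by omega), hfr (x + 1) (by omega)]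
      have e1 := hf₂.low (x - y₀)
      rw [show x - y₀ + 1 = x + 1 - y₀ by ring] at e1
      calc s' * (l * f₂ (x - y₀)) = l * (s' * f₂ (x - y₀)) := by ring
        _ ≤ l * ((1 - s') * f₂ (x + 1 - y₀)) := mul_le_mul_of_nonneg_left e1 hl0.le
        _ = _ := by ring
  · obtain ⟨L₂, hL₂⟩ := hf₂.low_eq
    refine ⟨max L (L₂ + y₀), fun x hx => ?_⟩
    have hx1 := (le_max_left _ _).trans hx
    have hx2 := (le_max_right _ _).trans hx
    rw [hfr x hx1, hfr (x + 1) (by omega)]
    have e1 := hL₂ (x - y₀) (by omega)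
    rw [show x - y₀ + 1 = x + 1 - y₀ by ring] at e1
    linear_combination l * e1
  · intro x
    by_cases h : x + J + D ≤ y₀
    · have e : ∀ p ∈ F, ∀ y : ℤ, y ≤ x + J → act p f y = act p f₁ y := by
        intro p hp y hy
        apply act_congr
        intro i hi
        have := hD p hp
        exact hfl _ (by omega)
      rcases hf₁.good x with h3 | h3
      · left
        intro j hj p hp
        rw [e p hp x (by omega), e p hp (x + j) (by omega)]
        exact h3 j hj p hp
      · right
        intro j hj p hp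
        rw [e p hp x (by omega), e p hp (x - j) (by omega)]
        exact h3 j hj p hp
    · have e : ∀ p ∈ F, ∀ y : ℤ, x - J ≤ y → act p f y = l * act p f₂ (y - y₀) := by
        intro p hp y hy
        rw [← act_smul_shift]
        apply act_congr
        intro i hi
        exact hfr _ (by omega)
      rcases hf₂.good (x - y₀) with h3 | h3
      · left
        intro j hj p hp
        rw [e p hp x (by omega), e p hp (x + j) (by omega)]
        have := h3 j hj p hp
        rw [show x - y₀ + (j : ℤ) = x + j - y₀ by ring] at this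
        exact this.smul hl0
      · right
        intro j hj p hp
        rw [e p hp x (by omega), e p hp (x - j) (by omega)]
        have := h3 j hj p hp
        rw [show x - y₀ - (j : ℤ) = x - j - y₀ by ring] at this
        exact this.smul hl0

lemma dominated (p : ℝ[X]) (f : ℤ → ℝ) (x : ℤ) (i₀ : ℕ) (hi₀ : i₀ ≤ p.natDegree) (r : ℝ)
    (h : ∀ i : ℕ, i ≤ p.natDegree → i ≠ i₀ → p.coeff i ≠ 0 → |f (x + i)| ≤ r * f (x + i₀))
    (hr : (∑ i ∈ Finset.range (p.natDegree + 1), |p.coeff i|) * r < |p.coeff i₀|)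
    (hr0 : 0 ≤ r) (hf : 0 < f (x + i₀)) : 0 < act p f x * p.coeff i₀ := by
  have hmem : i₀ ∈ Finset.range (p.natDegree + 1) := by simp [hi₀]
  have h1 : act p f x = p.coeff i₀ * f (x + i₀) +
      ∑ i ∈ (Finset.range (p.natDegree + 1)).erase i₀, p.coeff i * f (x + i) := by
    rw [act_apply, Finset.add_sum_erase _ (fun i : ℕ => p.coeff i * f (x + i)) hmem]
  set R := ∑ i ∈ (Finset.range (p.natDegree + 1)).erase i₀, p.coeff i * f (x + i) with hR
  set S := ∑ i ∈ Finset.range (p.natDegree + 1), |p.coeff i| with hS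
  have h2 : |R| ≤ S * (r * f (x + i₀)) := by
    rw [hR, hS, Finset.sum_mul]
    refine (Finset.abs_sum_le_sum_abs _ _).trans ?_
    refine (Finset.sum_le_sum (g := fun i => |p.coeff i| * (r * f (x + i₀))) ?_).trans ?_
    · intro i hi
      rw [abs_mul]
      rw [Finset.mem_erase, Finset.mem_range] at hi
      by_cases hc : p.coeff i = 0
      · simp [hc]
      · exact mul_le_mul_of_nonneg_left (h i (by omega) hi.1 hc) (abs_nonneg _)
    · apply Finset.sum_le_sum_of_subset_of_nonneg (Finset.erase_subset _ _)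
      intro i _ _
      positivity
  have h3 : |R| < |p.coeff i₀| * f (x + i₀) := by
    refine lt_of_le_of_lt h2 ?_
    rw [← mul_assoc]
    exact mul_lt_mul_of_pos_right hr hf
  rw [h1]
  rw [abs_lt] at h3
  rcases lt_trichotomy (p.coeff i₀) 0 with h4 | h4 | h4
  · rw [abs_of_neg h4] at h3
    apply mul_pos_of_neg_of_neg _ h4
    linarith [h3.2]
  · rw [h4] at h3
    simp at h3
    linarith [h3.1, h3.2]
  · rw [abs_of_pos h4] at h3
    apply mul_pos _ h4
    linarith [h3.1]

lemma exists_large (F : Finset ℝ[X]) (w : ℝ[X] → ℝ) (hw : ∀ p ∈ F, w p ≠ 0) :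
    ∃ K : ℝ, 1 ≤ K ∧ ∀ p ∈ F,
      (∑ i ∈ Finset.range (p.natDegree + 1), |p.coeff i|) * K⁻¹ < |w p| := by
  classical
  induction F using Finset.induction_on with
  | empty => exact ⟨1, le_rfl, by simp⟩
  | insert p F _ ih =>
    obtain ⟨K, hK, h⟩ := ih (fun q hq => hw q (Finset.mem_insert_of_mem hq))
    set S := ∑ i ∈ Finset.range (p.natDegree + 1), |p.coeff i| with hS
    have hS0 : 0 ≤ S := Finset.sum_nonneg fun i _ => abs_nonneg _
    have hwp : 0 < |w p| := abs_pos.mpr (hw p (Finset.mem_insert_self _ _))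
    set K' := max K (S / |w p| + 1) with hK'
    have hK'pos : 0 < K' := by
      have := le_max_left K (S / |w p| + 1)
      linarith
    refine ⟨K', hK.trans (le_max_left _ _), fun q hq => ?_⟩
    rcases Finset.mem_insert.mp hq with rfl | hq
    · have h1 : S / |w q| < K' := by
        have := le_max_right K (S / |w q| + 1)
        linarith
      rw [← div_eq_mul_inv, div_lt_iff₀ hK'pos]
      rw [div_lt_iff₀ hwp] at h1
      linarith
    · refine lt_of_le_of_lt ?_ (h q hq)
      apply mul_le_mul_of_nonneg_left _ (Finset.sum_nonneg fun i _ => abs_nonneg _)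
      exact inv_anti₀ (by linarith) (le_max_left _ _)

lemma stepC (F : Finset ℝ[X]) (hF : ∀ p ∈ F, p ≠ 0) :
    ∃ δ > 0, ∀ s, 1 - δ < s → s < 1 → 0 < s → GP F 1 s := by
  obtain ⟨K, hK1, hK⟩ := exists_large F (fun p => p.coeff p.natDegree)
    (fun p hp => by simpa using hF p hp)
  refine ⟨1 / (1 + K), by positivity, fun s hs1 hs2 hs0 J => ?_⟩
  have h1s : 0 < 1 - s := by linarith
  set d : ℝ := s / (1 - s) with hd
  have hKd : K ≤ d := by
    rw [hd, le_div_iff₀ h1s]
    have h2 : 1 - s < 1 / (1 + K) := by linarith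
    rw [lt_div_iff₀ (by linarith)] at h2
    nlinarith
  have hd1 : 1 ≤ d := hK1.trans hKd
  have hd0 : 0 < d := by linarith
  set f : ℤ → ℝ := fun x => if 0 ≤ x then d ^ x else 0 with hf
  have hfneg : ∀ x < 0, f x = 0 := fun x hx => by simp only [hf, if_neg (not_le.mpr hx)]
  have hfpos : ∀ x, 0 ≤ x → f x = d ^ x := fun x hx => by simp only [hf, if_pos hx]
  have hfp : ∀ x, 0 ≤ x → 0 < f x := fun x hx => by rw [hfpos x hx]; positivity
  have hnn : ∀ x, 0 ≤ f x := by
    intro x
    rcases lt_or_ge x 0 with h | h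
    · rw [hfneg x h]
    · exact (hfp x h).le
  have hstep : ∀ x, 0 ≤ x → f (x + 1) = d * f x := by
    intro x hx
    rw [hfpos x hx, hfpos (x + 1) (by omega), zpow_add_one₀ hd0.ne']
    ring
  have hstep' : ∀ x, d * f x ≤ f (x + 1) := by
    intro x
    rcases lt_or_ge x 0 with h | h
    · rw [hfneg x h, mul_zero]
      exact hnn _
    · exact (hstep x h).ge
  have hmono : Monotone f := by
    apply monotone_int_of_le_succ
    intro x
    have := hstep' x
    have := hnn x
    nlinarith
  refine ⟨f, ?_⟩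
  constructor
  · exact hnn
  · exact ⟨0, (hfp 0 le_rfl).ne'⟩
  · intro x
    have := hnn x
    linarith
  · intro x hx
    rw [hfneg x hx]
    ring
  · intro x
    have h1 := hstep' x
    rw [hd, div_mul_eq_mul_div, div_le_iff₀ h1s] at h1
    linarith
  · refine ⟨0, fun x hx => ?_⟩
    rw [hstep x hx, hd]
    field_simp
  · intro x
    left
    intro j hj p hp
    have hsign : ∀ y : ℤ, -(p.natDegree : ℤ) ≤ y → 0 < act p f y * p.coeff p.natDegree := by
      intro y hy
      apply dominated p f y p.natDegree le_rfl d⁻¹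
      · intro i hi hi2 _
        rw [abs_of_nonneg (hnn _)]
        have h1 : f (y + i) ≤ f (y + p.natDegree - 1) := hmono (by omega)
        have h2 := hstep' (y + p.natDegree - 1)
        rw [sub_add_cancel] at h2
        rw [← div_eq_inv_mul, le_div_iff₀ hd0]
        nlinarith
      · refine lt_of_le_of_lt ?_ (hK p hp)
        apply mul_le_mul_of_nonneg_left _ (Finset.sum_nonneg fun i _ => abs_nonneg _)
        exact inv_anti₀ (by linarith) hKd
      · positivity
      · exact hfp _ (by omega)
    by_cases hx : x < -(p.natDegree : ℤ)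
    · have : act p f x = 0 := by
        rw [act_apply]
        apply Finset.sum_eq_zero
        intro i hi
        rw [Finset.mem_range] at hi
        rw [hfneg _ (by omega), mul_zero]
      rw [this]
      exact SLe.zero _
    · push Not at hx
      have h1 := hsign x hx
      have h2 := hsign (x + j) (by omega)
      rcases lt_trichotomy (p.coeff p.natDegree) 0 with h3 | h3 | h3
      · apply SLe.of_neg
        · by_contra h4
          push Not at h4
          nlinarith
        · by_contra h4
          push Not at h4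
          nlinarith
      · rw [h3] at h1
        simp at h1
      · exact SLe.of_pos ((mul_pos_iff_of_pos_right h3).mp h1)
          ((mul_pos_iff_of_pos_right h3).mp h2)

lemma stepD (F : Finset ℝ[X]) (hF : ∀ p ∈ F, p ≠ 0) :
    ∃ δ > 0, ∀ s, 0 < s → s < δ → s < 1 → GP F s 0 := by
  obtain ⟨K, hK1, hK⟩ := exists_large F (fun p => p.coeff p.natTrailingDegree)
    (fun p hp => by simpa using hF p hp)
  refine ⟨1 / (1 + K), by positivity, fun s hs0 hs1 hs2 J => ?_⟩
  have h1s : 0 < 1 - s := by linarith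
  set e : ℝ := s / (1 - s) with he
  have he0 : 0 < e := div_pos hs0 h1s
  have hKe : e ≤ K⁻¹ := by
    rw [he, div_le_iff₀ h1s]
    rw [lt_div_iff₀ (by linarith)] at hs1
    have hK0 : 0 < K := by linarith
    rw [← div_eq_inv_mul, le_div_iff₀ hK0]
    nlinarith
  have he1 : e ≤ 1 := hKe.trans (inv_le_one_of_one_le₀ hK1)
  set f : ℤ → ℝ := fun x => if x ≤ 0 then e ^ x else 0 with hf
  have hfpos' : ∀ x, 0 < x → f x = 0 := fun x hx => by simp only [hf, if_neg (not_le.mpr hx)]
  have hfneg : ∀ x, x ≤ 0 → f x = e ^ x := fun x hx => by simp only [hf, if_pos hx]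
  have hfp : ∀ x, x ≤ 0 → 0 < f x := fun x hx => by rw [hfneg x hx]; positivity
  have hnn : ∀ x, 0 ≤ f x := by
    intro x
    rcases le_or_gt x 0 with h | h
    · exact (hfp x h).le
    · rw [hfpos' x h]
  have hstep : ∀ x, x < 0 → f (x + 1) = e * f x := by
    intro x hx
    rw [hfneg x hx.le, hfneg (x + 1) (by omega), zpow_add_one₀ he0.ne']
    ring
  have hstep' : ∀ x, f (x + 1) ≤ e * f x := by
    intro x
    rcases lt_or_ge x 0 with h | h
    · exact (hstep x h).le
    · rw [hfpos' (x + 1) (by omega)]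
      exact mul_nonneg he0.le (hnn _)
  have hanti : Antitone f := by
    apply antitone_int_of_succ_le
    intro x
    have := hstep' x
    have := hnn x
    nlinarith
  refine ⟨f, ?_⟩
  constructor
  · exact hnn
  · exact ⟨0, (hfp 0 le_rfl).ne'⟩
  · intro x
    have h1 := hstep' x
    rw [he, div_mul_eq_mul_div, le_div_iff₀ h1s] at h1
    linarith
  · intro x hx
    rw [hstep x hx, he]
    field_simp
  · intro x
    have := hnn (x + 1)
    linarith
  · refine ⟨0, fun x hx => ?_⟩
    rw [hfpos' (x + 1) (by omega)]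
    ring
  · intro x
    right
    intro j hj p hp
    have hp0 : p.coeff p.natTrailingDegree ≠ 0 := by simpa using hF p hp
    have hsign : ∀ y : ℤ, y ≤ -(p.natTrailingDegree : ℤ) →
        0 < act p f y * p.coeff p.natTrailingDegree := by
      intro y hy
      apply dominated p f y p.natTrailingDegree p.natTrailingDegree_le_natDegree e
      · intro i hi hi2 hi3
        rw [abs_of_nonneg (hnn _)]
        have h0 : p.natTrailingDegree ≤ i := natTrailingDegree_le_of_ne_zero hi3
        have h1 : f (y + i) ≤ f (y + p.natTrailingDegree + 1) := hanti (by omega)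
        exact h1.trans (hstep' _)
      · refine lt_of_le_of_lt ?_ (hK p hp)
        apply mul_le_mul_of_nonneg_left hKe (Finset.sum_nonneg fun i _ => abs_nonneg _)
      · exact he0.le
      · exact hfp _ (by omega)
    by_cases hx : -(p.natTrailingDegree : ℤ) < x
    · have : act p f x = 0 := by
        rw [act_apply]
        apply Finset.sum_eq_zero
        intro i hi
        by_cases hc : p.coeff i = 0
        · rw [hc, zero_mul]
        · have h0 : p.natTrailingDegree ≤ i := natTrailingDegree_le_of_ne_zero hc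
          rw [hfpos' _ (by omega), mul_zero]
      rw [this]
      exact SLe.zero _
    · push Not at hx
      have h1 := hsign x hx
      have h2 := hsign (x - j) (by omega)
      rcases lt_or_gt_of_ne hp0 with h3 | h3
      · apply SLe.of_neg
        · by_contra h4
          push Not at h4
          nlinarith
        · by_contra h4
          push Not at h4
          nlinarith
      · exact SLe.of_pos ((mul_pos_iff_of_pos_right h3).mp h1)
          ((mul_pos_iff_of_pos_right h3).mp h2)

lemma base_empty (s s' : ℝ) (hs'0 : 0 ≤ s') (hss : s' < s) (hs1 : s ≤ 1) :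
    GP ∅ s s' := by
  intro J
  have h1s' : 0 < 1 - s' := by linarith
  have hs0 : 0 < s := by linarith
  set d : ℝ := s / (1 - s) with hd
  set e : ℝ := s' / (1 - s') with he
  have hd0 : 0 ≤ d := div_nonneg hs0.le (by linarith)
  have he0 : 0 ≤ e := div_nonneg hs'0 h1s'.le
  set f : ℤ → ℝ := fun x => if x ≤ 0 then d ^ x else e ^ x with hf
  have hfl : ∀ x, x ≤ 0 → f x = d ^ x := fun x hx => by simp only [hf, if_pos hx]
  have hfr : ∀ x, 0 ≤ x → f x = e ^ x := by
    intro x hx
    rcases eq_or_lt_of_le hx with h | h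
    · rw [← h, hfl 0 le_rfl, zpow_zero, zpow_zero]
    · simp only [hf, if_neg (not_le.mpr h)]
  have hnn : ∀ x, 0 ≤ f x := by
    intro x
    rcases le_total x 0 with h | h
    · rw [hfl x h]
      exact zpow_nonneg hd0 _
    · rw [hfr x h]
      exact zpow_nonneg he0 _
  have hleft : ∀ x, x < 0 → (1 - s) * f (x + 1) = s * f x := by
    intro x hx
    rw [hfl x hx.le, hfl (x + 1) (by omega)]
    rcases eq_or_lt_of_le hs1 with h | h
    · have : d = 0 := by rw [hd, h]; simp
      rw [this, h, zero_zpow x (by omega)]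
      ring
    · have h1s : 0 < 1 - s := by linarith
      have hd0' : 0 < d := div_pos hs0 h1s
      rw [zpow_add_one₀ hd0'.ne']
      have : (1 - s) * d = s := by rw [hd]; field_simp
      calc (1 - s) * (d ^ x * d) = ((1 - s) * d) * d ^ x := by ring
        _ = _ := by rw [this]
  have hright : ∀ x, 0 ≤ x → s' * f x = (1 - s') * f (x + 1) := by
    intro x hx
    rw [hfr x hx, hfr (x + 1) (by omega)]
    rcases eq_or_lt_of_le hs'0 with h | h
    · have : e = 0 := by rw [he, ← h]; simp
      rw [this, ← h, zero_zpow (x + 1) (by omega)]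
      ring
    · have he0' : 0 < e := div_pos h h1s'
      rw [zpow_add_one₀ he0'.ne']
      have : (1 - s') * e = s' := by rw [he]; field_simp
      calc s' * e ^ x = ((1 - s') * e) * e ^ x := by rw [this]
        _ = _ := by ring
  refine ⟨f, ?_⟩
  constructor
  · exact hnn
  · refine ⟨0, ?_⟩
    rw [hfl 0 le_rfl, zpow_zero]
    exact one_ne_zero
  · intro x
    rcases lt_or_ge x 0 with h | h
    · exact (hleft x h).le
    · have h1 := hright x h
      have h2 := hnn x
      have h3 := hnn (x + 1)
      nlinarith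
  · exact hleft
  · intro x
    rcases lt_or_ge x 0 with h | h
    · have h1 := hleft x h
      have h2 := hnn x
      have h3 := hnn (x + 1)
      nlinarith
    · exact (hright x h).le
  · exact ⟨0, hright⟩
  · intro x
    left
    intro j _ p hp
    simp at hp

lemma connect (R : ℝ → ℝ → Prop)
    (hA : ∀ u, 0 ≤ u → u < 1 → ∃ δ > 0, ∀ s, u < s → s < u + δ → s < 1 → R s u)
    (hB : ∀ u, 0 < u → u ≤ 1 → ∃ δ > 0, ∀ s, u - δ < s → s < u → 0 < s → R u s)
    (hT : ∀ s u s', 0 ≤ s' → s' < u → u < s → s ≤ 1 → R s u → R u s' → R s s') :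
    ∀ s s', 0 ≤ s' → s' < s → s ≤ 1 → R s s' := by
  intro s s' hs'0 hss hs1
  set S : Set ℝ := {v | s' ≤ v ∧ v < s ∧ 0 < v ∧ R s v} with hS
  have hs0 : 0 < s := by linarith
  obtain ⟨δ, hδ, hBs⟩ := hB s hs0 hs1
  have hSne : S.Nonempty := by
    refine ⟨max (s - δ / 2) ((s' + s) / 2), ?_, ?_, ?_, ?_⟩
    · exact le_trans (by linarith) (le_max_right _ _)
    · exact max_lt (by linarith) (by linarith)
    · exact lt_of_lt_of_le (by linarith) (le_max_right _ _)
    · apply hBs
      · exact lt_of_lt_of_le (by linarith) (le_max_left _ _)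
      · exact max_lt (by linarith) (by linarith)
      · exact lt_of_lt_of_le (by linarith) (le_max_right _ _)
  have hSbdd : BddBelow S := ⟨s', fun v hv => hv.1⟩
  set v₀ := sInf S with hv₀
  have hv₀1 : s' ≤ v₀ := le_csInf hSne fun v hv => hv.1
  have hv₀2 : v₀ < s := by
    obtain ⟨v, hv⟩ := hSne
    exact lt_of_le_of_lt (csInf_le hSbdd hv) hv.2.1
  have hv₀3 : 0 ≤ v₀ := hs'0.trans hv₀1
  -- `R s v₀`
  have hRv : R s v₀ := by
    obtain ⟨δ', hδ', hAv⟩ := hA v₀ hv₀3 (by linarith)
    obtain ⟨v, hv, hvlt⟩ := exists_lt_of_csInf_lt hSne (show sInf S < v₀ + δ' by linarith)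
    have hle : v₀ ≤ v := csInf_le hSbdd hv
    rcases eq_or_lt_of_le hle with h | h
    · rw [h]
      exact hv.2.2.2
    · exact hT s v v₀ hv₀3 h hv.2.1 hs1 hv.2.2.2 (hAv v h hvlt (by linarith [hv.2.1]))
  rcases eq_or_lt_of_le hv₀1 with h | h
  · rw [h]
    exact hRv
  · exfalso
    have hv₀pos : 0 < v₀ := by linarith
    obtain ⟨δ', hδ', hBv⟩ := hB v₀ hv₀pos (by linarith)
    set w := max (v₀ - δ' / 2) ((s' + v₀) / 2) with hw
    have hw1 : w < v₀ := max_lt (by linarith) (by linarith)
    have hw2 : (s' + v₀) / 2 ≤ w := le_max_right _ _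
    have hw3 : v₀ - δ' / 2 ≤ w := le_max_left _ _
    have hRw : R v₀ w := hBv w (by linarith) hw1 (by linarith)
    have hRsw : R s w := hT s v₀ w (by linarith) hw1 hv₀2 hs1 hRv hRw
    have : w ∈ S := ⟨by linarith, by linarith, by linarith, hRsw⟩
    have := csInf_le hSbdd this
    linarith

theorem main (D : ℕ) : ∀ F : Finset ℝ[X], (∀ p ∈ F, p ≠ 0 ∧ p.natDegree < D) →
    ∀ s s' : ℝ, 0 ≤ s' → s' < s → s ≤ 1 → GP F s s' := by
  induction D with
  | zero =>
    intro F hF
    have : F = ∅ := by
      apply Finset.eq_empty_of_forall_notMem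
      intro p hp
      have := (hF p hp).2
      omega
    subst this
    intro s s' h1 h2 h3
    exact base_empty s s' h1 h2 h3
  | succ D ih =>
    intro F hF
    have hquot : ∀ c : ℝ, ∀ q ∈ quot F c, q ≠ 0 ∧ q.natDegree < D := by
      intro c q hq
      classical
      unfold quot at hq
      rw [Finset.mem_image] at hq
      obtain ⟨p, hp, rfl⟩ := hq
      rw [Finset.mem_filter] at hp
      obtain ⟨hp0, hpD⟩ := hF p hp.1
      have h1 := mul_divByMonic_eq_iff_isRoot.mpr hp.2
      constructor
      · intro h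
        rw [h, mul_zero] at h1
        exact hp0 h1.symm
      · have h2 : (p /ₘ (X - C c)).natDegree = p.natDegree - 1 := by
          rw [natDegree_divByMonic _ (monic_X_sub_C c), natDegree_X_sub_C]
        have h3 : 0 < p.natDegree := by
          have := hp.2
          rcases Nat.eq_zero_or_pos p.natDegree with h | h
          · rw [natDegree_eq_zero] at h
            obtain ⟨a, rfl⟩ := h
            rw [IsRoot, eval_C] at this
            subst this
            simp at hp0
          · exact h
        omega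
    have hne : ∀ p ∈ F, p ≠ 0 := fun p hp => (hF p hp).1
    apply connect
    · intro u hu0 hu1
      rcases eq_or_lt_of_le hu0 with h | h
      · subst h
        obtain ⟨δ, hδ, h⟩ := stepD F hne
        exact ⟨δ, hδ, fun s h1 h2 h3 => h s h1 (by linarith) h3⟩
      · apply stepA F u h hu1
        intro s h1 h2
        exact ih _ (hquot _) s 0 le_rfl (by linarith) h2.le
    · intro u hu0 hu1
      rcases eq_or_lt_of_le hu1 with h | h
      · subst h
        exact stepC F hne
      · apply stepB F u hu0 h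
        intro s h1 h2
        exact ih _ (hquot _) 1 s h1.le (by linarith) le_rfl
    · intro s u s' h0 h1 h2 h3 h4 h5
      exact path_trans F s u s' (by linarith) (by linarith) h2.le h1.le h4 h5

end

end Pool.Agent.H37.Core
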