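import Mathlib
import Pool.Agent.H37.Core

set_option autoImplicit false

namespace Pool.Agent.H37.Core

open Polynomial Filter Topology

noncomputable section

/-- a linear form with integer coefficients, applied at `x` -/
def ap (L : ℤ →₀ ℤ) (f : ℤ → ℤ) (x : ℤ) : ℤ := L.sum fun i a => a * f (x + i)

/-- real version -/
def apR (L : ℤ →₀ ℤ) (f : ℤ → ℝ) (x : ℤ) : ℝ := ∑ i ∈ L.support, (L i : ℝ) * f (x + i)

/-- simultaneous Dirichlet approximation -/
lemma dirichlet (f : ℤ → ℝ) (hf : (Function.support f).Finite) (ε : ℝ) (hε : 0 < ε) :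
    ∃ N : ℕ, 1 ≤ N ∧ ∃ g : ℤ → ℤ, (∀ x, f x = 0 → g x = 0) ∧ ∀ x, |N * f x - g x| < ε := by
  set S := hf.toFinset with hS
  set u : ℕ → (S → ℝ) := fun t x => Int.fract ((t : ℝ) * f x) with hu
  have hmem : ∀ t, u t ∈ Set.Icc (0 : S → ℝ) 1 := by
    intro t
    constructor
    · intro x
      exact Int.fract_nonneg _
    · intro x
      exact (Int.fract_lt_one _).le
  obtain ⟨a, _, φ, hφ, hlim⟩ := isCompact_Icc.tendsto_subseq hmem
  have hc := hlim.cauchySeq
  rw [Metric.cauchySeq_iff] at hc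
  obtain ⟨M, hM⟩ := hc ε hε
  have hd := hM (M + 1) (by omega) M le_rfl
  have hlt : φ M < φ (M + 1) := hφ (Nat.lt_succ_self M)
  refine ⟨φ (M + 1) - φ M, by omega, fun x => ⌊(φ (M + 1) : ℝ) * f x⌋ - ⌊(φ M : ℝ) * f x⌋, ?_, ?_⟩
  · intro x hx
    simp [hx]
  · intro x
    by_cases hx : f x = 0
    · simpa [hx] using hε
    · have hxS : x ∈ S := by
        rw [hS, Set.Finite.mem_toFinset]
        exact hx
      rw [dist_pi_lt_iff hε] at hd
      have h1 := hd ⟨x, hxS⟩
      rw [Real.dist_eq] at h1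
      simp only [hu, Function.comp] at h1
      have h2 : ((φ (M + 1) - φ M : ℕ) : ℝ) * f x
          - ((⌊(φ (M + 1) : ℝ) * f x⌋ - ⌊(φ M : ℝ) * f x⌋ : ℤ) : ℝ)
          = Int.fract ((φ (M + 1) : ℝ) * f x) - Int.fract ((φ M : ℝ) * f x) := by
        rw [Nat.cast_sub hlt.le, Int.fract, Int.fract]
        push_cast
        ring
      rw [h2]
      exact h1

lemma exists_eps {α : Type} (S : Finset α) (P : α → ℝ → Prop)
    (mono : ∀ a ε ε', 0 < ε' → ε' ≤ ε → P a ε → P a ε')
    (h : ∀ a ∈ S, ∃ ε > 0, P a ε) : ∃ ε > 0, ∀ a ∈ S, P a ε := by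
  classical
  induction S using Finset.induction_on with
  | empty => exact ⟨1, one_pos, by simp⟩
  | insert a S _ ih =>
    obtain ⟨ε, hε, h1⟩ := ih (fun b hb => h b (Finset.mem_insert_of_mem hb))
    obtain ⟨ε', hε', h2⟩ := h a (Finset.mem_insert_self _ _)
    refine ⟨min ε ε', lt_min hε hε', fun b hb => ?_⟩
    rcases Finset.mem_insert.mp hb with rfl | hb
    · exact mono _ _ _ (lt_min hε hε') (min_le_right _ _) h2
    · exact mono _ _ _ (lt_min hε hε') (min_le_left _ _) (h1 b hb)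

lemma apR_support_finite (L : ℤ →₀ ℤ) (f : ℤ → ℝ) (hf : (Function.support f).Finite) :
    {x | apR L f x ≠ 0}.Finite := by
  have : {x | apR L f x ≠ 0} ⊆ ⋃ i ∈ L.support, (fun y => y - i) '' (Function.support f) := by
    intro x hx
    simp only [Set.mem_setOf_eq, apR] at hx
    obtain ⟨i, hi, hne⟩ := Finset.exists_ne_zero_of_sum_ne_zero hx
    simp only [Set.mem_iUnion]
    refine ⟨i, hi, x + i, ?_, by ring⟩
    intro h
    apply hne
    rw [h, mul_zero]
  refine Set.Finite.subset ?_ this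
  exact Set.Finite.biUnion (Finset.finite_toSet _) (fun i _ => hf.image _)

lemma toInt (f : ℤ → ℝ) (hf : (Function.support f).Finite) (F : Finset (ℤ →₀ ℤ)) :
    ∃ g : ℤ → ℤ, (∀ x, f x = 0 → g x = 0) ∧ ∀ L ∈ F, ∀ x,
      SLe (apR L f x) ((ap L g x : ℤ) : ℝ) ∧ SLe ((ap L g x : ℤ) : ℝ) (apR L f x) := by
  set N1 : (ℤ →₀ ℤ) → ℝ := fun L => 1 + ∑ i ∈ L.support, |(L i : ℝ)| with hN1
  have hN1pos : ∀ L, 0 < N1 L := by
    intro L
    have : 0 ≤ ∑ i ∈ L.support, |(L i : ℝ)| := Finset.sum_nonneg fun i _ => abs_nonneg _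
    simp only [hN1]
    linarith
  obtain ⟨ε, hε, hP⟩ := exists_eps F
    (fun L ε => ε * N1 L ≤ 1 ∧ ∀ x, apR L f x ≠ 0 → ε * N1 L ≤ |apR L f x|)
    (by
      rintro L ε ε' h0 h1 ⟨h2, h3⟩
      have h4 : ε' * N1 L ≤ ε * N1 L := mul_le_mul_of_nonneg_right h1 (hN1pos L).le
      exact ⟨h4.trans h2, fun x hx => h4.trans (h3 x hx)⟩)
    (by
      intro L _
      obtain ⟨ε, hε, h⟩ := exists_eps (apR_support_finite L f hf).toFinset
        (fun x ε => ε * N1 L ≤ |apR L f x|)
        (by
          intro x ε ε' h0 h1 h2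
          exact (mul_le_mul_of_nonneg_right h1 (hN1pos L).le).trans h2)
        (by
          intro x hx
          have hx' : apR L f x ≠ 0 := by simpa using hx
          refine ⟨|apR L f x| / N1 L, div_pos (abs_pos.mpr hx') (hN1pos L), ?_⟩
          have := (hN1pos L).ne'
          field_simp
          exact le_rfl)
      refine ⟨min ε (1 / N1 L), lt_min hε (div_pos one_pos (hN1pos L)), ?_, ?_⟩
      · refine (mul_le_mul_of_nonneg_right (min_le_right _ _) (hN1pos L).le).trans ?_
        have := (hN1pos L).ne'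
        field_simp
        exact le_rfl
      · intro x hx
        exact (mul_le_mul_of_nonneg_right (min_le_left _ _) (hN1pos L).le).trans
          (h x (by simpa using hx)))
  obtain ⟨N, hN, g, hg0, hg⟩ := dirichlet f hf ε hε
  refine ⟨g, hg0, fun L hL x => ?_⟩
  obtain ⟨h1, h2⟩ := hP L hL
  have hN' : (1 : ℝ) ≤ N := by exact_mod_cast hN
  have hap : ((ap L g x : ℤ) : ℝ) = ∑ i ∈ L.support, (L i : ℝ) * (g (x + i) : ℝ) := by
    simp [ap, Finsupp.sum]
  have hdiff : |((ap L g x : ℤ) : ℝ) - N * apR L f x| < ε * N1 L := by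
    have h3 : ((ap L g x : ℤ) : ℝ) - N * apR L f x
        = ∑ i ∈ L.support, (L i : ℝ) * ((g (x + i) : ℝ) - N * f (x + i)) := by
      rw [hap, apR, Finset.mul_sum, ← Finset.sum_sub_distrib]
      apply Finset.sum_congr rfl
      intro i _
      ring
    rw [h3]
    have h4 : |∑ i ∈ L.support, (L i : ℝ) * ((g (x + i) : ℝ) - N * f (x + i))|
        ≤ ∑ i ∈ L.support, |(L i : ℝ)| * ε := by
      refine (Finset.abs_sum_le_sum_abs _ _).trans (Finset.sum_le_sum fun i _ => ?_)
      rw [abs_mul]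
      apply mul_le_mul_of_nonneg_left _ (abs_nonneg _)
      rw [abs_sub_comm]
      exact (hg _).le
    refine lt_of_le_of_lt h4 ?_
    rw [← Finset.sum_mul]
    simp only [hN1]
    nlinarith
  rw [abs_lt] at hdiff
  rcases lt_trichotomy (apR L f x) 0 with h | h | h
  · have h3 := h2 x h.ne
    rw [abs_of_neg h] at h3
    have : ((ap L g x : ℤ) : ℝ) < 0 := by nlinarith [hdiff.2]
    exact ⟨SLe.of_neg h this, SLe.of_neg this h⟩
  · rw [h] at hdiff ⊢
    have h3 : |((ap L g x : ℤ) : ℝ)| < 1 := by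
      rw [abs_lt]
      constructor <;> linarith [hdiff.1, hdiff.2]
    have h4 : ap L g x = 0 := by
      have : |ap L g x| < 1 := by exact_mod_cast h3
      exact Int.abs_lt_one_iff.mp this
    rw [h4]
    simp only [Int.cast_zero]
    exact ⟨SLe.zero _, SLe.zero _⟩
  · have h3 := h2 x h.ne'
    rw [abs_of_pos h] at h3
    have : 0 < ((ap L g x : ℤ) : ℝ) := by nlinarith [hdiff.1]
    exact ⟨SLe.of_pos h this, SLe.of_pos this h⟩

/-- polynomial attached to a linear form -/
def toPoly (m : ℕ) (L : ℤ →₀ ℤ) : ℝ[X] := ∑ i ∈ L.support, C (L i : ℝ) * X ^ (i + m).toNat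

lemma act_toPoly (m : ℕ) (L : ℤ →₀ ℤ) (hL : ∀ i ∈ L.support, -(m : ℤ) ≤ i) (f : ℤ → ℝ) (x : ℤ) :
    act (toPoly m L) f (x - m) = apR L f x := by
  rw [act, toPoly, map_sum, LinearMap.sum_apply, Finset.sum_apply, apR]
  apply Finset.sum_congr rfl
  intro i hi
  have h1 := hL i hi
  rw [map_mul, aeval_C, map_pow, aeval_X, Module.End.mul_apply, Module.algebraMap_end_apply,
    Pi.smul_apply, smul_eq_mul, T_pow_apply]
  congr 2
  have : ((i + (m : ℤ)).toNat : ℤ) = i + m := Int.toNat_of_nonneg (by omega)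
  rw [this]
  ring

/-- **Core theorem.** For every finite set of integer linear forms there is a nonzero finitely
supported integer valued function on `ℤ` along which the sign vectors of the forms move slowly
and monotonically. -/
theorem core (F : Finset (ℤ →₀ ℤ)) (J : ℕ) : ∃ f : ℤ → ℤ, (Function.support f).Finite ∧ f ≠ 0 ∧
    ∀ x : ℤ, (∀ j : ℕ, j ≤ J → ∀ L ∈ F, SLe (ap L f x) (ap L f (x + j))) ∨
      (∀ j : ℕ, j ≤ J → ∀ L ∈ F, SLe (ap L f x) (ap L f (x - j))) := by
  classical
  obtain ⟨m, hm⟩ : ∃ m : ℕ, ∀ L ∈ F, ∀ i ∈ L.support, -(m : ℤ) ≤ i := by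
    refine ⟨F.sup (fun L => L.support.sup (fun i => i.natAbs)), fun L hL i hi => ?_⟩
    have h1 : i.natAbs ≤ L.support.sup (fun i => i.natAbs) :=
      Finset.le_sup (f := fun i : ℤ => i.natAbs) hi
    have h2 : L.support.sup (fun i => i.natAbs) ≤ F.sup (fun L => L.support.sup (fun i => i.natAbs)) :=
      Finset.le_sup (f := fun L : ℤ →₀ ℤ => L.support.sup (fun i => i.natAbs)) hL
    have h3 := h1.trans h2
    omega
  set F' : Finset ℝ[X] := (F.image (toPoly m)).erase 0 with hF'
  have hmain := main (F'.sup (fun p => p.natDegree) + 1) F' (by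
    intro p hp
    refine ⟨(Finset.mem_erase.mp hp).1, ?_⟩
    have := Finset.le_sup (f := fun p : ℝ[X] => p.natDegree) hp
    omega) 1 0 le_rfl one_pos le_rfl J
  obtain ⟨f, hf⟩ := hmain
  have hneg : ∀ x < 0, f x = 0 := by
    intro x hx
    have := hf.up_eq x hx
    linarith
  obtain ⟨R, hR⟩ := hf.low_eq
  have hpos : ∀ x, R < x → f x = 0 := by
    intro x hx
    have := hR (x - 1) (by omega)
    rw [sub_add_cancel] at this
    linarith
  have hfin : (Function.support f).Finite := by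
    apply (Set.finite_Icc (0 : ℤ) R).subset
    intro x hx
    constructor
    · by_contra h
      push Not at h
      exact hx (hneg x h)
    · by_contra h
      push Not at h
      exact hx (hpos x h)
  have hgood : ∀ x : ℤ, (∀ j : ℕ, j ≤ J → ∀ L ∈ F, SLe (apR L f x) (apR L f (x + j))) ∨
      (∀ j : ℕ, j ≤ J → ∀ L ∈ F, SLe (apR L f x) (apR L f (x - j))) := by
    have key : ∀ x y : ℤ, (∀ p ∈ F', SLe (act p f (x - m)) (act p f (y - m))) →
        ∀ L ∈ F, SLe (apR L f x) (apR L f y) := by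
      intro x y h L hL
      rw [← act_toPoly m L (hm L hL), ← act_toPoly m L (hm L hL)]
      by_cases h0 : toPoly m L = 0
      · rw [h0]
        simp only [act, map_zero, LinearMap.zero_apply, Pi.zero_apply]
        exact SLe.zero _
      · exact h _ (Finset.mem_erase.mpr ⟨h0, Finset.mem_image_of_mem _ hL⟩)
    intro x
    rcases hf.good (x - m) with h | h
    · left
      intro j hj
      apply key
      rw [show x + (j : ℤ) - m = x - m + j by ring]
      exact h j hj
    · right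
      intro j hj
      apply key
      rw [show x - (j : ℤ) - m = x - m - j by ring]
      exact h j hj
  obtain ⟨g, hg0, hg⟩ := toInt f hfin (insert (Finsupp.single 0 1) F)
  have htr : ∀ L ∈ F, ∀ x y : ℤ, SLe (apR L f x) (apR L f y) → SLe (ap L g x) (ap L g y) := by
    intro L hL x y h
    obtain ⟨_, h2⟩ := hg L (Finset.mem_insert_of_mem hL) x
    obtain ⟨h3, _⟩ := hg L (Finset.mem_insert_of_mem hL) y
    constructor
    · intro h5
      have h6 : (0 : ℝ) < ((ap L g x : ℤ) : ℝ) := by exact_mod_cast h5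
      have := h3.1 (h.1 (h2.1 h6))
      exact_mod_cast this
    · intro h5
      have h6 : ((ap L g x : ℤ) : ℝ) < 0 := by exact_mod_cast h5
      have := h3.2 (h.2 (h2.2 h6))
      exact_mod_cast this
  refine ⟨g, ?_, ?_, ?_⟩
  · apply hfin.subset
    intro x hx h
    exact hx (hg0 x h)
  · obtain ⟨x₀, hx₀⟩ := hf.ne
    have hx₀' : 0 < f x₀ := lt_of_le_of_ne (hf.nonneg x₀) (Ne.symm hx₀)
    intro h
    have h1 := (hg _ (Finset.mem_insert_self _ _) x₀).1.1
    have h2 : apR (Finsupp.single 0 1) f x₀ = f x₀ := by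
      rw [apR, Finsupp.support_single_ne_zero 0 one_ne_zero]
      simp
    rw [h2] at h1
    have h3 := h1 hx₀'
    have h4 : ap (Finsupp.single 0 1) g x₀ = g x₀ := by
      rw [ap, Finsupp.sum_single_index]
      · simp
      · simp
    rw [h4, h] at h3
    simp at h3
  · intro x
    rcases hgood x with h | h
    · left
      intro j hj L hL
      exact htr L hL _ _ (h j hj L hL)
    · right
      intro j hj L hL
      exact htr L hL _ _ (h j hj L hL)

end

end Pool.Agent.H37.Core
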