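import Mathlib
import Pool.Agent.H37.CoreInt

set_option autoImplicit false

namespace Pool.Agent.H37.ZwrZ

open Filter Pool.Agent.H37.Core

/-- pairs (function, integer): the permutation `(a, β) ↦ (a + n, β + f a)` of `ℤ × ℤ` -/
@[ext]
structure GG where
  f : ℤ → ℤ
  n : ℤ

namespace GG

instance : Mul GG := ⟨fun x y => ⟨fun a => y.f a + x.f (a + y.n), x.n + y.n⟩⟩
instance : One GG := ⟨⟨fun _ => 0, 0⟩⟩
instance : Inv GG := ⟨fun x => ⟨fun a => - x.f (a - x.n), - x.n⟩⟩

lemma mul_f (x y : GG) (a : ℤ) : (x * y).f a = y.f a + x.f (a + y.n) := rfl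
lemma mul_n (x y : GG) : (x * y).n = x.n + y.n := rfl
lemma one_f (a : ℤ) : (1 : GG).f a = 0 := rfl
lemma one_n : (1 : GG).n = 0 := rfl
lemma inv_f (x : GG) (a : ℤ) : (x⁻¹).f a = - x.f (a - x.n) := rfl
lemma inv_n (x : GG) : (x⁻¹).n = - x.n := rfl

instance : Group GG where
  mul_assoc x y z := by
    ext a
    · simp only [mul_f, mul_n]
      rw [show a + (y.n + z.n) = a + z.n + y.n by ring]
      ring
    · simp only [mul_n]
      ring
  one_mul x := by
    ext a
    · simp only [mul_f, one_f]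
      ring
    · simp only [mul_n, one_n]
      ring
  mul_one x := by
    ext a
    · simp only [mul_f, one_f, one_n, add_zero, zero_add]
    · simp only [mul_n, one_n, add_zero]
  inv_mul_cancel x := by
    ext a
    · simp only [mul_f, inv_f, one_f]
      rw [show a + x.n - x.n = a by ring]
      ring
    · simp only [mul_n, inv_n, one_n]
      ring

instance : LE GG := ⟨fun x y => x.n < y.n ∨ (x.n = y.n ∧ x.f ≤ y.f)⟩

lemma le_def (x y : GG) : x ≤ y ↔ x.n < y.n ∨ (x.n = y.n ∧ x.f ≤ y.f) := Iff.rfl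

instance : Max GG := ⟨fun x y => if x.n < y.n then y else if y.n < x.n then x else
  ⟨x.f ⊔ y.f, x.n⟩⟩

instance : Min GG := ⟨fun x y => if x.n < y.n then x else if y.n < x.n then y else
  ⟨x.f ⊓ y.f, x.n⟩⟩

lemma sup_def (x y : GG) : x ⊔ y = if x.n < y.n then y else if y.n < x.n then x else
  ⟨x.f ⊔ y.f, x.n⟩ := rfl

lemma inf_def (x y : GG) : x ⊓ y = if x.n < y.n then x else if y.n < x.n then y else
  ⟨x.f ⊓ y.f, x.n⟩ := rfl

instance : PartialOrder GG where
  le_refl x := Or.inr ⟨rfl, le_rfl⟩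
  le_trans x y z h1 h2 := by
    rcases h1 with h1 | ⟨h1, h1'⟩ <;> rcases h2 with h2 | ⟨h2, h2'⟩
    · exact Or.inl (h1.trans h2)
    · exact Or.inl (by rw [← h2]; exact h1)
    · exact Or.inl (by rw [h1]; exact h2)
    · exact Or.inr ⟨h1.trans h2, h1'.trans h2'⟩
  le_antisymm x y h1 h2 := by
    rcases h1 with h1 | ⟨h1, h1'⟩ <;> rcases h2 with h2 | ⟨h2, h2'⟩
    · omega
    · omega
    · omega
    · exact GG.ext (le_antisymm h1' h2') h1

instance : Lattice GG where
  sup := (· ⊔ ·)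
  inf := (· ⊓ ·)
  le_sup_left x y := by
    rw [sup_def]
    split_ifs with h1 h2
    · exact Or.inl h1
    · exact le_refl x
    · exact Or.inr ⟨rfl, le_sup_left⟩
  le_sup_right x y := by
    rw [sup_def]
    split_ifs with h1 h2
    · exact le_refl y
    · exact Or.inl h2
    · exact Or.inr ⟨by show y.n = x.n; omega, le_sup_right⟩
  sup_le x y z hx hy := by
    rw [sup_def]
    split_ifs with h1 h2
    · exact hy
    · exact hx
    · rw [le_def] at hx hy ⊢
      show x.n < z.n ∨ x.n = z.n ∧ x.f ⊔ y.f ≤ z.f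
      rcases hx with hx | ⟨hx, hx'⟩
      · exact Or.inl hx
      · rcases hy with hy | ⟨hy, hy'⟩
        · omega
        · exact Or.inr ⟨hx, sup_le hx' hy'⟩
  inf_le_left x y := by
    rw [inf_def]
    split_ifs with h1 h2
    · exact le_refl x
    · exact Or.inl h2
    · exact Or.inr ⟨rfl, inf_le_left⟩
  inf_le_right x y := by
    rw [inf_def]
    split_ifs with h1 h2
    · exact Or.inl h1
    · exact le_refl y
    · exact Or.inr ⟨by show x.n = y.n; omega, inf_le_right⟩
  le_inf x y z hx hy := by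
    rw [inf_def]
    split_ifs with h1 h2
    · exact hx
    · exact hy
    · rw [le_def] at hx hy ⊢
      show x.n < y.n ∨ x.n = y.n ∧ x.f ≤ y.f ⊓ z.f
      rcases hx with hx | ⟨hx, hx'⟩
      · exact Or.inl hx
      · rcases hy with hy | ⟨hy, hy'⟩
        · omega
        · exact Or.inr ⟨hx, le_inf hx' hy'⟩

lemma mul_le_mul_left'' (z x y : GG) (h : x ≤ y) : z * x ≤ z * y := by
  rw [le_def] at h ⊢
  simp only [mul_n]
  rcases h with h | ⟨h, h'⟩
  · left; omega
  · right
    refine ⟨by omega, fun a => ?_⟩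
    simp only [mul_f, h]
    have : x.f a ≤ y.f a := h' a
    omega

lemma mul_le_mul_right'' (z x y : GG) (h : x ≤ y) : x * z ≤ y * z := by
  rw [le_def] at h ⊢
  simp only [mul_n]
  rcases h with h | ⟨h, h'⟩
  · left; omega
  · right
    refine ⟨by omega, fun a => ?_⟩
    simp only [mul_f]
    have : x.f (a + z.n) ≤ y.f (a + z.n) := h' (a + z.n)
    omega

/-- the action on `ℤ × ℤ` -/
def act : GG →* Equiv.Perm (ℤ × ℤ) where
  toFun x :=
    { toFun := fun p => (p.1 + x.n, p.2 + x.f p.1)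
      invFun := fun p => (p.1 - x.n, p.2 - x.f (p.1 - x.n))
      left_inv := fun p => by simp
      right_inv := fun p => by simp }
  map_one' := by
    ext p <;> simp [one_f, one_n]
  map_mul' x y := by
    ext p
    · simp [mul_n]
      ring
    · simp [mul_f]
      ring

lemma act_apply (x : GG) (p : ℤ × ℤ) : act x p = (p.1 + x.n, p.2 + x.f p.1) := rfl

lemma toLex_le_iff (a b c d : ℤ) : toLex (a, b) ≤ toLex (c, d) ↔ a < c ∨ (a = c ∧ b ≤ d) := by
  rw [Prod.Lex.le_iff]
  rfl

lemma act_sup (x y : GG) (p : ℤ × ℤ) :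
    toLex (act (x ⊔ y) p) = toLex (act x p) ⊔ toLex (act y p) := by
  rw [sup_def]
  split_ifs with h1 h2
  · rw [eq_comm, sup_eq_right]
    simp only [act_apply]
    rw [toLex_le_iff]
    left; omega
  · rw [eq_comm, sup_eq_left]
    simp only [act_apply]
    rw [toLex_le_iff]
    left; omega
  · have h3 : x.n = y.n := by omega
    simp only [act_apply]
    rcases le_total (x.f p.1) (y.f p.1) with h | h
    · have h4 : (x.f ⊔ y.f) p.1 = y.f p.1 := by rw [Pi.sup_apply, sup_eq_right.mpr h]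
      rw [h4, eq_comm, h3, sup_eq_right, toLex_le_iff]
      right; omega
    · have h4 : (x.f ⊔ y.f) p.1 = x.f p.1 := by rw [Pi.sup_apply, sup_eq_left.mpr h]
      rw [h4, eq_comm, h3, sup_eq_left, toLex_le_iff]
      right; omega

lemma act_inf (x y : GG) (p : ℤ × ℤ) :
    toLex (act (x ⊓ y) p) = toLex (act x p) ⊓ toLex (act y p) := by
  rw [inf_def]
  split_ifs with h1 h2
  · rw [eq_comm, inf_eq_left]
    simp only [act_apply]
    rw [toLex_le_iff]
    left; omega
  · rw [eq_comm, inf_eq_right]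
    simp only [act_apply]
    rw [toLex_le_iff]
    left; omega
  · have h3 : x.n = y.n := by omega
    simp only [act_apply]
    rcases le_total (x.f p.1) (y.f p.1) with h | h
    · have h4 : (x.f ⊓ y.f) p.1 = x.f p.1 := by rw [Pi.inf_apply, inf_eq_left.mpr h]
      rw [h4, eq_comm, h3, inf_eq_left, toLex_le_iff]
      right; omega
    · have h4 : (x.f ⊓ y.f) p.1 = y.f p.1 := by rw [Pi.inf_apply, inf_eq_right.mpr h]
      rw [h4, eq_comm, h3, inf_eq_right, toLex_le_iff]
      right; omega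

lemma act_eq_iff (x : GG) : (∀ p, toLex (act x p) = toLex p) ↔ x = 1 := by
  constructor
  · intro h
    have h1 : ∀ p, act x p = p := fun p => toLex.injective (h p)
    ext a
    · have := congrArg Prod.snd (h1 (a, 0))
      simpa [act_apply, one_f] using this
    · have := congrArg Prod.fst (h1 (0, 0))
      simpa [act_apply, one_n] using this
  · rintro rfl p
    rw [map_one]
    rfl

end GG

/-- the value of the lattice term `⋁ᵢ ⋀ⱼ uᵢⱼ` -/
def term {A : Type} [Group A] [Lattice A] {k m : ℕ}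
    (u : Fin (m + 1) → Fin (m + 1) → FreeGroup (Fin k)) (x : Fin k → A) : A :=
  Finset.univ.sup' Finset.univ_nonempty (fun i =>
    Finset.univ.inf' Finset.univ_nonempty (fun j => FreeGroup.lift x (u i j)))

lemma term_map {A B : Type} [Group A] [Lattice A] [Group B] [Lattice B] (φ : A →* B)
    (hsup : ∀ a b, φ (a ⊔ b) = φ a ⊔ φ b) (hinf : ∀ a b, φ (a ⊓ b) = φ a ⊓ φ b) {k m : ℕ}
    (u : Fin (m + 1) → Fin (m + 1) → FreeGroup (Fin k)) (x : Fin k → A) :
    φ (term u x) = term u (fun l => φ (x l)) := by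
  unfold term
  rw [Finset.apply_sup'_eq_sup'_comp Finset.univ_nonempty φ hsup]
  congr 1
  ext i
  simp only [Function.comp]
  rw [Finset.apply_inf'_eq_inf'_comp Finset.univ_nonempty φ hinf]
  congr 1
  ext j
  simp only [Function.comp]
  have : φ.comp (FreeGroup.lift x) = FreeGroup.lift (fun l => φ (x l)) := by
    ext l
    simp
  rw [← this]
  rfl

lemma term_act {k m : ℕ} (u : Fin (m + 1) → Fin (m + 1) → FreeGroup (Fin k)) (x : Fin k → GG)
    (ω : ℤ × ℤ) :
    Finset.univ.sup' Finset.univ_nonempty (fun i =>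
      Finset.univ.inf' Finset.univ_nonempty (fun j =>
        toLex ((FreeGroup.lift (fun l => GG.act (x l)) (u i j)) ω))) =
      toLex (GG.act (term u x) ω) := by
  unfold term
  rw [Finset.apply_sup'_eq_sup'_comp Finset.univ_nonempty (fun g : GG => toLex (GG.act g ω))
    (fun a b => GG.act_sup a b ω)]
  congr 1
  ext i
  simp only [Function.comp]
  rw [Finset.apply_inf'_eq_inf'_comp Finset.univ_nonempty (fun g : GG => toLex (GG.act g ω))
    (fun a b => GG.act_inf a b ω)]
  congr 1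
  ext j
  simp only [Function.comp]
  have : GG.act.comp (FreeGroup.lift x) = FreeGroup.lift (fun l => GG.act (x l)) := by
    ext l : 1
    simp
  rw [← this]
  rfl

/-- index set -/
abbrev Idx : Type := Finset (ℤ →₀ ℤ) × ℕ

noncomputable section

/-- the functions given by the core theorem -/
def ff (i : Idx) : ℤ → ℤ := Classical.choose (core i.1 i.2)

lemma ff_finite (i : Idx) : (Function.support (ff i)).Finite :=
  (Classical.choose_spec (core i.1 i.2)).1

lemma ff_ne (i : Idx) : ff i ≠ 0 := (Classical.choose_spec (core i.1 i.2)).2.1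

lemma ff_good (i : Idx) :
    ∀ x : ℤ, (∀ j : ℕ, j ≤ i.2 → ∀ L ∈ i.1, SLe (ap L (ff i) x) (ap L (ff i) (x + j))) ∨
      (∀ j : ℕ, j ≤ i.2 → ∀ L ∈ i.1, SLe (ap L (ff i) x) (ap L (ff i) (x - j))) :=
  (Classical.choose_spec (core i.1 i.2)).2.2

/-- piecewise linear sequences -/
def Tame (r : Idx → ℤ → ℤ) : Prop :=
  ∃ P F : Finset (ℤ →₀ ℤ), ∀ᶠ i in (atTop : Filter Idx), ∀ x y : ℤ,
    (∀ L ∈ F, SLe (ap L (ff i) x) (ap L (ff i) y)) →
      ∃ p ∈ P, r i x = ap p (ff i) x ∧ r i y = ap p (ff i) y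

lemma ap_add (L L' : ℤ →₀ ℤ) (f : ℤ → ℤ) (x : ℤ) : ap (L + L') f x = ap L f x + ap L' f x := by
  unfold ap
  rw [Finsupp.sum_add_index']
  · intro i; simp
  · intro i a b; ring

lemma ap_neg (L : ℤ →₀ ℤ) (f : ℤ → ℤ) (x : ℤ) : ap (-L) f x = - ap L f x := by
  unfold ap
  rw [Finsupp.sum_neg_index (fun i => by simp), Finsupp.sum, Finsupp.sum, ← Finset.sum_neg_distrib]
  apply Finset.sum_congr rfl
  intro i _
  ring

/-- translated form -/
def shiftL (n : ℤ) (L : ℤ →₀ ℤ) : ℤ →₀ ℤ := L.mapDomain (fun i => i + n)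

lemma ap_shiftL (n : ℤ) (L : ℤ →₀ ℤ) (f : ℤ → ℤ) (x : ℤ) :
    ap (shiftL n L) f x = ap L f (x + n) := by
  unfold ap shiftL
  rw [Finsupp.sum_mapDomain_index]
  · apply Finsupp.sum_congr
    intro i _
    rw [show x + n + i = x + (i + n) by ring]
  · intro i; simp
  · intro i a b; ring

open scoped Classical Pointwise

lemma Tame.add {r r' : Idx → ℤ → ℤ} (h : Tame r) (h' : Tame r') : Tame (fun i => r i + r' i) := by
  obtain ⟨P, F, h⟩ := h
  obtain ⟨P', F', h'⟩ := h'
  refine ⟨P + P', F ∪ F', ?_⟩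
  filter_upwards [h, h'] with i hi hi' x y hxy
  obtain ⟨p, hp, h1, h2⟩ := hi x y (fun L hL => hxy L (Finset.mem_union_left _ hL))
  obtain ⟨p', hp', h1', h2'⟩ := hi' x y (fun L hL => hxy L (Finset.mem_union_right _ hL))
  refine ⟨p + p', Finset.add_mem_add hp hp', ?_, ?_⟩
  · rw [ap_add, ← h1, ← h1']; rfl
  · rw [ap_add, ← h2, ← h2']; rfl

lemma Tame.neg {r : Idx → ℤ → ℤ} (h : Tame r) : Tame (fun i => - r i) := by
  obtain ⟨P, F, h⟩ := h
  refine ⟨P.image (fun p => -p), F, ?_⟩
  filter_upwards [h] with i hi x y hxy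
  obtain ⟨p, hp, h1, h2⟩ := hi x y hxy
  refine ⟨-p, Finset.mem_image_of_mem _ hp, ?_, ?_⟩
  · rw [ap_neg, ← h1]; rfl
  · rw [ap_neg, ← h2]; rfl

lemma Tame.zero : Tame (fun _ => 0) := by
  refine ⟨{0}, ∅, ?_⟩
  filter_upwards with i x y _
  exact ⟨0, Finset.mem_singleton_self _, by simp [ap], by simp [ap]⟩

lemma Tame.shift {r : Idx → ℤ → ℤ} (h : Tame r) (n : ℤ) : Tame (fun i a => r i (a + n)) := by
  obtain ⟨P, F, h⟩ := h
  refine ⟨P.image (shiftL n), F.image (shiftL n), ?_⟩
  filter_upwards [h] with i hi x y hxy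
  obtain ⟨p, hp, h1, h2⟩ := hi (x + n) (y + n) (by
    intro L hL
    have := hxy (shiftL n L) (Finset.mem_image_of_mem _ hL)
    rw [ap_shiftL, ap_shiftL] at this
    exact this)
  refine ⟨shiftL n p, Finset.mem_image_of_mem _ hp, ?_, ?_⟩
  · rw [ap_shiftL, ← h1]
  · rw [ap_shiftL, ← h2]

lemma Tame.sup {r r' : Idx → ℤ → ℤ} (h : Tame r) (h' : Tame r') : Tame (fun i => r i ⊔ r' i) := by
  obtain ⟨P, F, h⟩ := h
  obtain ⟨P', F', h'⟩ := h'
  refine ⟨P ∪ P', F ∪ F' ∪ (P + P'.image (fun p => -p)), ?_⟩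
  filter_upwards [h, h'] with i hi hi' x y hxy
  obtain ⟨p, hp, h1, h2⟩ := hi x y
    (fun L hL => hxy L (Finset.mem_union_left _ (Finset.mem_union_left _ hL)))
  obtain ⟨p', hp', h1', h2'⟩ := hi' x y
    (fun L hL => hxy L (Finset.mem_union_left _ (Finset.mem_union_right _ hL)))
  have hd := hxy (p + -p') (Finset.mem_union_right _
    (Finset.add_mem_add hp (Finset.mem_image_of_mem _ hp')))
  rw [ap_add, ap_neg, ap_add, ap_neg, ← h1, ← h2, ← h1', ← h2'] at hd
  obtain ⟨hd1, hd2⟩ := hd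
  by_cases hle : r' i y ≤ r i y
  · have hx : r' i x ≤ r i x := by
      by_contra hc
      have := hd2 (by omega)
      omega
    refine ⟨p, Finset.mem_union_left _ hp, ?_, ?_⟩
    · rw [← h1, Pi.sup_apply, sup_eq_left.mpr hx]
    · rw [← h2, Pi.sup_apply, sup_eq_left.mpr hle]
  · have hx : r i x ≤ r' i x := by
      by_contra hc
      have := hd1 (by omega)
      omega
    refine ⟨p', Finset.mem_union_right _ hp', ?_, ?_⟩
    · rw [← h1', Pi.sup_apply, sup_eq_right.mpr hx]
    · rw [← h2', Pi.sup_apply, sup_eq_right.mpr (by omega)]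

lemma Tame.inf {r r' : Idx → ℤ → ℤ} (h : Tame r) (h' : Tame r') : Tame (fun i => r i ⊓ r' i) := by
  have := (h.neg.sup h'.neg).neg
  convert this using 2 with i
  ext x
  simp only [Pi.inf_apply, Pi.neg_apply, Pi.sup_apply]
  omega

lemma Tame.ff : Tame ff := by
  refine ⟨{Finsupp.single 0 1}, ∅, ?_⟩
  filter_upwards with i x y _
  refine ⟨_, Finset.mem_singleton_self _, ?_, ?_⟩ <;>
  · rw [ap, Finsupp.sum_single_index] <;> simp

/-- tame sequences are eventually finitely supported -/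
lemma Tame.finite {r : Idx → ℤ → ℤ} (h : Tame r) :
    ∀ᶠ i in (atTop : Filter Idx), (Function.support (r i)).Finite := by
  obtain ⟨P, F, h⟩ := h
  filter_upwards [h] with i hi
  have hfin : ∀ p : ℤ →₀ ℤ, {x | ap p (ZwrZ.ff i) x ≠ 0}.Finite := by
    intro p
    have : {x | ap p (ZwrZ.ff i) x ≠ 0} ⊆
        ⋃ k ∈ p.support, (fun y => y - k) '' (Function.support (ZwrZ.ff i)) := by
      intro x hx
      have hx' : ∑ k ∈ p.support, p k * ZwrZ.ff i (x + k) ≠ 0 := hx
      obtain ⟨k, hk, hne⟩ := Finset.exists_ne_zero_of_sum_ne_zero hx'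
      simp only [Set.mem_iUnion]
      refine ⟨k, hk, x + k, ?_, by ring⟩
      intro h
      apply hne
      rw [h, mul_zero]
    refine Set.Finite.subset ?_ this
    exact Set.Finite.biUnion (Finset.finite_toSet _) (fun k _ => (ff_finite i).image _)
  have hsub : Function.support (r i) ⊆ ⋃ p ∈ P, {x | ap p (ZwrZ.ff i) x ≠ 0} := by
    intro x hx
    obtain ⟨p, hp, h1, _⟩ := hi x x (fun L _ => SLe.refl _)
    simp only [Set.mem_iUnion]
    refine ⟨p, hp, ?_⟩
    show ap p (ZwrZ.ff i) x ≠ 0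
    rw [← h1]
    exact hx
  refine Set.Finite.subset ?_ hsub
  exact Set.Finite.biUnion (Finset.finite_toSet _) (fun p _ => hfin p)

/-- the key property of tame sequences -/
lemma Tame.key {r : Idx → ℤ → ℤ} (h : Tame r) (j : ℤ)
    (h0 : ∀ᶠ i in (atTop : Filter Idx), ∀ x, min (r i x) (r i (x + j)) = 0) :
    ∀ᶠ i in (atTop : Filter Idx), ∀ x, r i x = 0 := by
  obtain ⟨P, F, h⟩ := h
  filter_upwards [h, h0, eventually_ge_atTop ((F ∪ P, j.natAbs) : Idx)] with i hi hi0 hge x
  have hFi : F ∪ P ⊆ i.1 := hge.1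
  have hji : j.natAbs ≤ i.2 := hge.2
  have hnn : ∀ x, 0 ≤ r i x := by
    intro x
    have := hi0 x
    omega
  by_contra hne
  have hpos : 0 < r i x := lt_of_le_of_ne (hnn x) (Ne.symm hne)
  have claim : ∀ y, (∀ L ∈ i.1, SLe (ap L (ZwrZ.ff i) x) (ap L (ZwrZ.ff i) y)) → 0 < r i y := by
    intro y hy
    obtain ⟨p, hp, h1, h2⟩ := hi x y (fun L hL => hy L (hFi (Finset.mem_union_left _ hL)))
    have := (hy p (hFi (Finset.mem_union_right _ hp))).1
    rw [← h1, ← h2] at this
    exact this hpos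
  have hboth : 0 < r i (x + j.natAbs) ∨ 0 < r i (x - j.natAbs) := by
    rcases ff_good i x with h | h
    · exact Or.inl (claim _ (h _ hji))
    · exact Or.inr (claim _ (h _ hji))
  have h1 := hi0 x
  have h2 := hi0 (x - j)
  rw [sub_add_cancel] at h2
  rcases le_total 0 j with hj | hj
  · have e : (j.natAbs : ℤ) = j := Int.natAbs_of_nonneg hj
    rw [e] at hboth
    omega
  · have e : (j.natAbs : ℤ) = -j := by omega
    rw [e] at hboth
    rw [show x + -j = x - j by ring, show x - -j = x + j by ring] at hboth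
    omega

/-- the germ of a sequence -/
abbrev GGerm : Type := Germ (atTop : Filter Idx) GG

/-- the germ of the sequence `i ↦ (r i, n)` -/
def mk (r : Idx → ℤ → ℤ) (n : ℤ) : GGerm := ((fun i => (⟨r i, n⟩ : GG)) : Idx → GG)

lemma mk_mul (r r' : Idx → ℤ → ℤ) (n n' : ℤ) :
    mk r n * mk r' n' = mk (fun i => r' i + fun a => r i (a + n')) (n + n') := rfl

lemma mk_inv (r : Idx → ℤ → ℤ) (n : ℤ) :
    (mk r n)⁻¹ = mk (fun i => - fun a => r i (a + -n)) (-n) := rfl

lemma mk_one : (1 : GGerm) = mk (fun _ => 0) 0 := rfl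

lemma mk_sup (r r' : Idx → ℤ → ℤ) (n n' : ℤ) :
    mk r n ⊔ mk r' n' = if n < n' then mk r' n' else if n' < n then mk r n else
      mk (fun i => r i ⊔ r' i) n := by
  have h : mk r n ⊔ mk r' n' = ((fun i => (⟨r i, n⟩ : GG) ⊔ ⟨r' i, n'⟩ : Idx → GG) : GGerm) := rfl
  rw [h]
  split_ifs with h1 h2
  · apply congrArg (fun z : Idx → GG => (z : GGerm))
    funext i
    rw [GG.sup_def, if_pos h1]
  · apply congrArg (fun z : Idx → GG => (z : GGerm))
    funext i
    rw [GG.sup_def, if_neg h1, if_pos h2]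
  · apply congrArg (fun z : Idx → GG => (z : GGerm))
    funext i
    rw [GG.sup_def, if_neg h1, if_neg h2]

lemma mk_inf (r r' : Idx → ℤ → ℤ) (n n' : ℤ) :
    mk r n ⊓ mk r' n' = if n < n' then mk r n else if n' < n then mk r' n' else
      mk (fun i => r i ⊓ r' i) n := by
  have h : mk r n ⊓ mk r' n' = ((fun i => (⟨r i, n⟩ : GG) ⊓ ⟨r' i, n'⟩ : Idx → GG) : GGerm) := rfl
  rw [h]
  split_ifs with h1 h2
  · apply congrArg (fun z : Idx → GG => (z : GGerm))
    funext i
    rw [GG.inf_def, if_pos h1]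
  · apply congrArg (fun z : Idx → GG => (z : GGerm))
    funext i
    rw [GG.inf_def, if_neg h1, if_pos h2]
  · apply congrArg (fun z : Idx → GG => (z : GGerm))
    funext i
    rw [GG.inf_def, if_neg h1, if_neg h2]

lemma mk_eq_iff (r r' : Idx → ℤ → ℤ) (n n' : ℤ) :
    mk r n = mk r' n' ↔ n = n' ∧ ∀ᶠ i in (atTop : Filter Idx), r i = r' i := by
  unfold mk
  rw [Germ.coe_eq]
  constructor
  · intro h
    constructor
    · obtain ⟨i, hi⟩ := h.exists
      exact congrArg GG.n hi
    · filter_upwards [h] with i hi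
      exact congrArg GG.f hi
  · rintro ⟨rfl, h⟩
    filter_upwards [h] with i hi
    rw [hi]

/-- the group `H` -/
def HH : Subgroup GGerm where
  carrier := {g | ∃ (r : Idx → ℤ → ℤ) (n : ℤ), Tame r ∧ g = mk r n}
  mul_mem' := by
    rintro _ _ ⟨r, n, hr, rfl⟩ ⟨r', n', hr', rfl⟩
    exact ⟨_, _, hr'.add (hr.shift n'), mk_mul r r' n n'⟩
  one_mem' := ⟨_, _, Tame.zero, mk_one⟩
  inv_mem' := by
    rintro _ ⟨r, n, hr, rfl⟩
    exact ⟨_, _, (hr.shift (-n)).neg, mk_inv r n⟩

lemma HH_sup {x y : GGerm} (hx : x ∈ HH) (hy : y ∈ HH) : x ⊔ y ∈ HH := by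
  obtain ⟨r, n, hr, rfl⟩ := hx
  obtain ⟨r', n', hr', rfl⟩ := hy
  rw [mk_sup]
  split_ifs
  · exact ⟨_, _, hr', rfl⟩
  · exact ⟨_, _, hr, rfl⟩
  · exact ⟨_, _, hr.sup hr', rfl⟩

lemma HH_inf {x y : GGerm} (hx : x ∈ HH) (hy : y ∈ HH) : x ⊓ y ∈ HH := by
  obtain ⟨r, n, hr, rfl⟩ := hx
  obtain ⟨r', n', hr', rfl⟩ := hy
  rw [mk_inf]
  split_ifs
  · exact ⟨_, _, hr, rfl⟩
  · exact ⟨_, _, hr', rfl⟩
  · exact ⟨_, _, hr.inf hr', rfl⟩

instance instLatticeHH : Lattice HH :=
  Subtype.lattice (fun _ _ hx hy => HH_sup hx hy) (fun _ _ hx hy => HH_inf hx hy)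

lemma HH_le_iff (x y : HH) : x ≤ y ↔ (x : GGerm) ≤ y := Iff.rfl

lemma germ_mul_le_left (z x y : GGerm) (h : x ≤ y) : z * x ≤ z * y := by
  revert h
  refine Germ.inductionOn₃ z x y fun z x y h => ?_
  rw [Germ.coe_le] at h
  rw [← Germ.coe_mul, ← Germ.coe_mul, Germ.coe_le]
  filter_upwards [h] with i hi
  exact GG.mul_le_mul_left'' _ _ _ hi

lemma germ_mul_le_right (z x y : GGerm) (h : x ≤ y) : x * z ≤ y * z := by
  revert h
  refine Germ.inductionOn₃ z x y fun z x y h => ?_
  rw [Germ.coe_le] at h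
  rw [← Germ.coe_mul, ← Germ.coe_mul, Germ.coe_le]
  filter_upwards [h] with i hi
  exact GG.mul_le_mul_right'' _ _ _ hi

instance instMulLeftHH : MulLeftMono HH :=
  ⟨fun z x y h => germ_mul_le_left (z : GGerm) x y h⟩

instance instMulRightHH : MulRightMono HH :=
  ⟨fun z x y h => germ_mul_le_right (z : GGerm) x y h⟩

lemma term_germ {k m : ℕ} (w : Fin (m + 1) → Fin (m + 1) → FreeGroup (Fin k))
    (Y : Fin k → Idx → GG) :
    term w (fun l => ((Y l : Idx → GG) : GGerm)) =
      ((fun i => term w (fun l => Y l i) : Idx → GG) : GGerm) := by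
  have h1 := term_map (Germ.coeMulHom (atTop : Filter Idx) (M := GG)) (fun a b => rfl)
    (fun a b => rfl) w Y
  have h2 : term w Y = fun i => term w (fun l => Y l i) := by
    funext i
    exact term_map (Pi.evalMonoidHom (fun _ : Idx => GG) i) (fun a b => rfl) (fun a b => rfl) w Y
  rw [h2] at h1
  exact h1.symm

lemma term_HH {k m : ℕ} (w : Fin (m + 1) → Fin (m + 1) → FreeGroup (Fin k)) (x : Fin k → HH) :
    ((term w x : HH) : GGerm) = term w (fun l => (x l : GGerm)) :=
  term_map HH.subtype (fun a b => rfl) (fun a b => rfl) w x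

/-- `H` satisfies the quasi-identities of the finitary group -/
lemma qi {k m : ℕ} (u v : Fin (m + 1) → Fin (m + 1) → FreeGroup (Fin k))
    (hG : ∀ x : Fin k → GG, (∀ l, (Function.support (x l).f).Finite) →
      term u x = 1 → term v x = 1) (x : Fin k → HH) (hx : term u x = 1) : term v x = 1 := by
  choose r n hr hxr using fun l => (x l).2
  have hterm : ∀ w : Fin (m + 1) → Fin (m + 1) → FreeGroup (Fin k),
      ((term w x : HH) : GGerm) =
        ((fun i => term w (fun l => (⟨r l i, n l⟩ : GG)) : Idx → GG) : GGerm) := by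
    intro w
    rw [term_HH]
    have : (fun l => (x l : GGerm)) = fun l => ((fun i => (⟨r l i, n l⟩ : GG) : Idx → GG) : GGerm) := by
      funext l
      exact hxr l
    rw [this, term_germ]
  have h1 : ∀ᶠ i in (atTop : Filter Idx), term u (fun l => (⟨r l i, n l⟩ : GG)) = 1 := by
    have h2 : ((term u x : HH) : GGerm) = 1 := by rw [hx]; rfl
    rw [hterm] at h2
    exact Germ.coe_eq.mp h2
  have h3 : ∀ᶠ i in (atTop : Filter Idx), ∀ l, (Function.support (r l i)).Finite :=
    Filter.eventually_all.mpr fun l => (hr l).finite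
  have h4 : ∀ᶠ i in (atTop : Filter Idx), term v (fun l => (⟨r l i, n l⟩ : GG)) = 1 := by
    filter_upwards [h1, h3] with i hi1 hi3
    exact hG _ hi3 hi1
  apply Subtype.ext
  rw [hterm]
  exact Germ.coe_eq.mpr h4

/-- the quasi-identity that separates `H` from the wreath product -/
lemma phi_HH (x y : HH) (h : x ⊓ y⁻¹ * x * y = 1) : x = 1 := by
  obtain ⟨r, n, hr, hx⟩ := x.2
  obtain ⟨c, j, hc, hy⟩ := y.2
  have h1 : (x : GGerm) ⊓ (y : GGerm)⁻¹ * (x : GGerm) * (y : GGerm) = 1 := by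
    have := congrArg (fun z : HH => (z : GGerm)) h
    exact this
  rw [hx, hy, mk_inv, mk_mul, mk_mul, mk_inf] at h1
  have hn : ¬ (n < -j + n + j) := by omega
  have hn' : ¬ (-j + n + j < n) := by omega
  rw [if_neg hn, if_neg hn', mk_one, mk_eq_iff] at h1
  obtain ⟨rfl, h1⟩ := h1
  have h2 : ∀ᶠ i in (atTop : Filter Idx), ∀ x, r i x = 0 := by
    apply hr.key j
    filter_upwards [h1] with i hi x
    have h3 := congrFun hi x
    simp only [Pi.inf_apply, Pi.add_apply, Pi.neg_apply, Pi.zero_apply] at h3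
    rw [show x + j + 0 + -j = x by ring] at h3
    rw [show c i x + (r i (x + j) + -c i x) = r i (x + j) by ring] at h3
    exact h3
  apply Subtype.ext
  rw [hx]
  show mk r 0 = 1
  rw [mk_one, mk_eq_iff]
  refine ⟨rfl, ?_⟩
  filter_upwards [h2] with i hi
  funext x
  exact hi x

lemma HH_nonabelian : ∃ a b : HH, a * b ≠ b * a := by
  refine ⟨⟨mk ff 0, ff, 0, Tame.ff, rfl⟩, ⟨mk (fun _ => 0) 1, _, 1, Tame.zero, rfl⟩, ?_⟩
  intro h
  have h1 : mk ff 0 * mk (fun _ => 0) 1 = mk (fun _ => 0) 1 * mk ff 0 :=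
    congrArg (fun z : HH => (z : GGerm)) h
  rw [mk_mul, mk_mul, mk_eq_iff] at h1
  obtain ⟨i, hi⟩ := h1.2.exists
  have h2 : ∀ a, ff i (a + 1) = ff i a := by
    intro a
    have := congrFun hi a
    simpa using this
  have h3 : ∀ a, ff i a = ff i 0 := by
    intro a
    induction a using Int.induction_on with
    | zero => rfl
    | succ n ih => rw [h2]; exact ih
    | pred n ih =>
      rw [← h2, sub_add_cancel]
      exact ih
  apply ff_ne i
  funext a
  rw [h3 a]
  by_contra hne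
  have : Function.support (ff i) = Set.univ := by
    ext b
    simp only [Function.mem_support, Set.mem_univ, iff_true]
    rw [h3 b]
    exact hne
  have hf := ff_finite i
  rw [this] at hf
  exact Set.infinite_univ hf

/-- the words of the separating quasi-identity -/
def uw : Fin (1 + 1) → Fin (1 + 1) → FreeGroup (Fin 2) := fun _ j =>
  if j = 0 then FreeGroup.of 0 else (FreeGroup.of 1)⁻¹ * FreeGroup.of 0 * FreeGroup.of 1

def vw : Fin (1 + 1) → Fin (1 + 1) → FreeGroup (Fin 2) := fun _ _ => FreeGroup.of 0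

lemma term_uw {A : Type} [Group A] [Lattice A] (x : Fin 2 → A) :
    term uw x = x 0 ⊓ (x 1)⁻¹ * x 0 * x 1 := by
  have h : ∀ i : Fin (1 + 1), Finset.univ.inf' Finset.univ_nonempty
      (fun j => FreeGroup.lift x (uw i j)) = x 0 ⊓ (x 1)⁻¹ * x 0 * x 1 := by
    intro i
    apply le_antisymm
    · apply le_inf
      · have := Finset.inf'_le (fun j => FreeGroup.lift x (uw i j)) (Finset.mem_univ (0 : Fin (1 + 1)))
        simpa [uw] using this
      · have := Finset.inf'_le (fun j => FreeGroup.lift x (uw i j)) (Finset.mem_univ (1 : Fin (1 + 1)))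
        simpa [uw] using this
    · apply Finset.le_inf'
      intro j _
      fin_cases j
      · simp [uw]
      · simp [uw]
  unfold term
  apply le_antisymm
  · apply Finset.sup'_le
    intro i _
    rw [h i]
  · rw [← h 0]
    exact Finset.le_sup' (fun i => Finset.univ.inf' Finset.univ_nonempty
      (fun j => FreeGroup.lift x (uw i j))) (Finset.mem_univ (0 : Fin (1 + 1)))

lemma term_vw {A : Type} [Group A] [Lattice A] (x : Fin 2 → A) : term vw x = x 0 := by
  unfold term vw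
  simp

end

end Pool.Agent.H37.ZwrZ
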